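import Pool.Agent.Helper27.PGN.Alg
import Pool.Agent.Helper27.PGN.Fin
import Pool.Agent.Helper27.PGN.Big

/-!
Constructions of polarised rational Hodge structures (MP_b8862a_ag): the rational structure twisted with a rational
symmetric involution.
-/

set_option linter.unusedSectionVars false

open Matrix Kronecker

namespace MH.QS94

open MH.Her27

variable {n : Type*} [Fintype n] [DecidableEq n]

/-- the change of basis -/
noncomputable def Lt (T : Matrix n n ℚ) : Matrix n n ℂ := al • (1 : Matrix n n ℂ) + be • toC T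

/-- the inverse of the change of basis -/
noncomputable def Li (T : Matrix n n ℚ) : Matrix n n ℂ := be • (1 : Matrix n n ℂ) + al • toC T

theorem toC_mul' (A B : Matrix n n ℚ) : toC (A * B) = toC A * toC B := by
  simp only [toC]
  rw [Matrix.map_mul]

theorem toC_one' : toC (1 : Matrix n n ℚ) = 1 := by
  simp only [toC]
  rw [Matrix.map_one _ (map_zero _) (map_one _)]

theorem toC_add' (A B : Matrix n n ℚ) : toC (A + B) = toC A + toC B := by
  simp only [toC]
  rw [Matrix.map_add _ (map_add _)]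

theorem toC_sub' (A B : Matrix n n ℚ) : toC (A - B) = toC A - toC B := by
  ext i j
  simp [toC]

theorem toC_neg' (A : Matrix n n ℚ) : toC (-A) = -toC A := by
  ext i j
  simp [toC]

theorem toC_conj' (A : Matrix n n ℚ) : (toC A).map (starRingEnd ℂ) = toC A := by
  ext i j
  simp [toC]

theorem map_smul_conj (c : ℂ) (X : Matrix n n ℂ) :
    (c • X).map (starRingEnd ℂ) = starRingEnd ℂ c • X.map (starRingEnd ℂ) := by
  ext i j
  simp

variable {T : Matrix n n ℚ}

theorem tT (hT : T * T = 1) : toC T * toC T = 1 := by rw [← toC_mul', hT, toC_one']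

theorem Lt_mul_Li (hT : T * T = 1) : Lt T * Li T = 1 := by
  rw [Lt, Li, mul_add, add_mul, add_mul]
  simp only [smul_mul_assoc, mul_smul_comm, mul_one, one_mul, smul_smul, tT hT]
  rw [be_sq, al_sq, al_mul_be, mul_comm, al_mul_be]
  have h1 : (1 : Matrix n n ℂ) = (1 / 2 : ℂ) • (1 : Matrix n n ℂ) + (1 / 2 : ℂ) • (1 : Matrix n n ℂ) := by
    rw [← add_smul]; norm_num
  conv_rhs => rw [h1]
  rw [neg_smul]
  abel

theorem Li_mul_Lt (hT : T * T = 1) : Li T * Lt T = 1 := by
  rw [Lt, Li, mul_add, add_mul, add_mul]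
  simp only [smul_mul_assoc, mul_smul_comm, mul_one, one_mul, smul_smul, tT hT]
  rw [be_sq, al_sq, al_mul_be, mul_comm, al_mul_be]
  have h1 : (1 : Matrix n n ℂ) = (1 / 2 : ℂ) • (1 : Matrix n n ℂ) + (1 / 2 : ℂ) • (1 : Matrix n n ℂ) := by
    rw [← add_smul]; norm_num
  conv_rhs => rw [h1]
  rw [neg_smul]
  abel

theorem T_mul_Lt (hT : T * T = 1) : toC T * Lt T = Li T := by
  rw [Lt, Li, mul_add]
  simp only [mul_smul_comm, mul_one, tT hT]
  rw [add_comm]

theorem Lt_mul_T (hT : T * T = 1) : Lt T * toC T = Li T := by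
  rw [Lt, Li, add_mul]
  simp only [smul_mul_assoc, one_mul, tT hT]
  rw [add_comm]

theorem T_mul_Li (hT : T * T = 1) : toC T * Li T = Lt T := by
  rw [Lt, Li, mul_add]
  simp only [mul_smul_comm, mul_one, tT hT]
  rw [add_comm]

theorem Li_mul_T (hT : T * T = 1) : Li T * toC T = Lt T := by
  rw [Lt, Li, add_mul]
  simp only [smul_mul_assoc, one_mul, tT hT]
  rw [add_comm]

theorem Lt_sq (hT : T * T = 1) : Lt T * Lt T = toC T := by
  calc Lt T * Lt T = toC T * (Li T * Lt T) := by rw [← mul_assoc, T_mul_Li hT]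
    _ = toC T := by rw [Li_mul_Lt hT, mul_one]

theorem Lt_conj : (Lt T).map (starRingEnd ℂ) = Li T := by
  rw [Lt, Li, Matrix.map_add _ (map_add _), map_smul_conj, map_smul_conj, toC_conj', conj_al, conj_be,
    Matrix.map_one _ (map_zero _) (map_one _)]

theorem Li_conj : (Li T).map (starRingEnd ℂ) = Lt T := by
  rw [Lt, Li, Matrix.map_add _ (map_add _), map_smul_conj, map_smul_conj, toC_conj', conj_al, conj_be,
    Matrix.map_one _ (map_zero _) (map_one _)]

theorem Lt_transpose (hs : Tᵀ = T) : (Lt T)ᵀ = Lt T := by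
  have h1 : (toC T)ᵀ = toC T := by
    conv_rhs => rw [← hs]
    rfl
  rw [Lt, Matrix.transpose_add, Matrix.transpose_smul, Matrix.transpose_smul, Matrix.transpose_one, h1]

theorem Li_transpose (hs : Tᵀ = T) : (Li T)ᵀ = Li T := by
  have h1 : (toC T)ᵀ = toC T := by
    conv_rhs => rw [← hs]
    rfl
  rw [Li, Matrix.transpose_add, Matrix.transpose_smul, Matrix.transpose_smul, Matrix.transpose_one, h1]

/-- the matrices that are real in the twisted sense -/
def Tr (T : Matrix n n ℚ) (X : Matrix n n ℂ) : Prop := toC T * X.map (starRingEnd ℂ) * toC T = X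

/-- passage to the twisted coordinates -/
noncomputable def tw (T : Matrix n n ℚ) (X : Matrix n n ℂ) : Matrix n n ℂ := Li T * X * Lt T

theorem tw_mul (hT : T * T = 1) (X Y : Matrix n n ℂ) : tw T X * tw T Y = tw T (X * Y) := by
  calc tw T X * tw T Y = Li T * X * (Lt T * Li T) * Y * Lt T := by simp only [tw, mul_assoc]
    _ = _ := by rw [Lt_mul_Li hT, mul_one]; simp only [tw, mul_assoc]

theorem tw_add (X Y : Matrix n n ℂ) : tw T (X + Y) = tw T X + tw T Y := by
  simp only [tw, mul_add, add_mul]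

theorem tw_sub (X Y : Matrix n n ℂ) : tw T (X - Y) = tw T X - tw T Y := by
  simp only [tw, mul_sub, sub_mul]

theorem tw_smul (c : ℂ) (X : Matrix n n ℂ) : tw T (c • X) = c • tw T X := by
  simp only [tw, mul_smul_comm, smul_mul_assoc]

theorem tw_one (hT : T * T = 1) : tw T (1 : Matrix n n ℂ) = 1 := by
  rw [tw, mul_one, Li_mul_Lt hT]

theorem tw_zero : tw T (0 : Matrix n n ℂ) = 0 := by
  rw [tw, mul_zero, zero_mul]

theorem tw_trace (hT : T * T = 1) (X : Matrix n n ℂ) : (tw T X).trace = X.trace := by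
  rw [tw, Matrix.trace_mul_comm, ← mul_assoc, Lt_mul_Li hT, one_mul]

/-- the inverse of the passage to the twisted coordinates -/
noncomputable def ut (T : Matrix n n ℚ) (X : Matrix n n ℂ) : Matrix n n ℂ := Lt T * X * Li T

theorem tw_ut (hT : T * T = 1) (X : Matrix n n ℂ) : tw T (ut T X) = X := by
  calc tw T (ut T X) = (Li T * Lt T) * X * (Li T * Lt T) := by simp only [tw, ut, mul_assoc]
    _ = X := by rw [Li_mul_Lt hT, one_mul, mul_one]

theorem ut_tw (hT : T * T = 1) (X : Matrix n n ℂ) : ut T (tw T X) = X := by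
  calc ut T (tw T X) = (Lt T * Li T) * X * (Lt T * Li T) := by simp only [tw, ut, mul_assoc]
    _ = X := by rw [Lt_mul_Li hT, one_mul, mul_one]

theorem ut_mul (hT : T * T = 1) (X Y : Matrix n n ℂ) : ut T X * ut T Y = ut T (X * Y) := by
  calc ut T X * ut T Y = Lt T * X * (Li T * Lt T) * Y * Li T := by simp only [ut, mul_assoc]
    _ = _ := by rw [Li_mul_Lt hT, mul_one]; simp only [ut, mul_assoc]

/-- a matrix that commutes with `T` does not change if it commutes with `T` -/
theorem tw_of_comm (hT : T * T = 1) {X : Matrix n n ℂ} (h : toC T * X = X * toC T) : tw T X = X := by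
  have h1 : X * Lt T = Lt T * X := by
    rw [Lt, mul_add, add_mul, mul_smul_comm, mul_smul_comm, smul_mul_assoc, smul_mul_assoc, mul_one, one_mul, h]
  rw [tw, mul_assoc, h1, ← mul_assoc, Li_mul_Lt hT, one_mul]

/-- conjugation in the twisted coordinates -/
theorem tw_conj (hT : T * T = 1) (X : Matrix n n ℂ) :
    (tw T X).map (starRingEnd ℂ) = tw T (toC T * X.map (starRingEnd ℂ) * toC T) := by
  rw [tw, Matrix.map_mul, Matrix.map_mul, Li_conj, Lt_conj, tw]
  calc Lt T * X.map (starRingEnd ℂ) * Li T = (Li T * toC T) * X.map (starRingEnd ℂ) * (toC T * Lt T) := by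
        rw [Li_mul_T hT, T_mul_Lt hT]
    _ = _ := by simp only [mul_assoc]

theorem Tr.tw_conj (hT : T * T = 1) {X : Matrix n n ℂ} (h : Tr T X) : (tw T X).map (starRingEnd ℂ) = tw T X := by
  rw [MH.QS94.tw_conj hT, h]

/-! ### matrices with entries in `ℚ(i)` -/

/-- matrices with entries in `ℚ(i)` -/
def QI (M : Matrix n n ℂ) : Prop := ∃ A B : Matrix n n ℚ, M = toC A + Complex.I • toC B

theorem QI.add {M N : Matrix n n ℂ} (h1 : QI M) (h2 : QI N) : QI (M + N) := by
  obtain ⟨A, B, rfl⟩ := h1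
  obtain ⟨C, D, rfl⟩ := h2
  refine ⟨A + C, B + D, ?_⟩
  rw [toC_add', toC_add', smul_add]
  abel

theorem QI.mul {M N : Matrix n n ℂ} (h1 : QI M) (h2 : QI N) : QI (M * N) := by
  obtain ⟨A, B, rfl⟩ := h1
  obtain ⟨C, D, rfl⟩ := h2
  refine ⟨A * C - B * D, A * D + B * C, ?_⟩
  rw [toC_sub', toC_add', toC_mul', toC_mul', toC_mul', toC_mul']
  simp only [add_mul, mul_add, smul_mul_assoc, mul_smul_comm, smul_smul, Complex.I_mul_I, neg_smul, one_smul, smul_add]
  abel

theorem QI.of_rat (A : Matrix n n ℚ) : QI (toC A) := ⟨A, 0, by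
  have h0 : toC (0 : Matrix n n ℚ) = 0 := by ext i j; simp [toC]
  rw [h0, smul_zero, add_zero]⟩

theorem QI_Lt : QI (Lt T) := by
  refine ⟨(1 / 2 : ℚ) • (1 + T), (1 / 2 : ℚ) • (1 - T), ?_⟩
  ext i j
  simp only [Lt, toC, Matrix.add_apply, Matrix.smul_apply, Matrix.map_apply, Matrix.sub_apply, smul_eq_mul, map_mul,
    map_add, map_sub, map_div₀, map_one, map_ofNat]
  have h1 : algebraMap ℚ ℂ ((1 : Matrix n n ℚ) i j) = (1 : Matrix n n ℂ) i j := by
    rw [Matrix.one_apply, Matrix.one_apply]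
    split_ifs <;> simp
  rw [h1]
  have e1 : al = 1 / 2 + Complex.I * (1 / 2) := by
    apply Complex.ext <;> simp [al]
  have e2 : be = 1 / 2 - Complex.I * (1 / 2) := by
    apply Complex.ext <;> simp [be]; norm_num
  rw [e1, e2]
  ring

theorem QI_Li : QI (Li T) := by
  refine ⟨(1 / 2 : ℚ) • (1 + T), (-1 / 2 : ℚ) • (1 - T), ?_⟩
  ext i j
  simp only [Li, toC, Matrix.add_apply, Matrix.smul_apply, Matrix.map_apply, Matrix.sub_apply, smul_eq_mul, map_mul,
    map_add, map_sub, map_div₀, map_one, map_ofNat, map_neg]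
  have h1 : algebraMap ℚ ℂ ((1 : Matrix n n ℚ) i j) = (1 : Matrix n n ℂ) i j := by
    rw [Matrix.one_apply, Matrix.one_apply]
    split_ifs <;> simp
  rw [h1]
  have e1 : al = 1 / 2 + Complex.I * (1 / 2) := by
    apply Complex.ext <;> simp [al]
  have e2 : be = 1 / 2 - Complex.I * (1 / 2) := by
    apply Complex.ext <;> simp [be]; norm_num
  rw [e1, e2]
  ring

/-- a real matrix with entries in `ℚ(i)` is rational -/
theorem QI.rat {M : Matrix n n ℂ} (h : QI M) (hr : M.map (starRingEnd ℂ) = M) : ∃ A : Matrix n n ℚ, M = toC A := by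
  obtain ⟨A, B, rfl⟩ := h
  refine ⟨A, ?_⟩
  have h1 : Complex.I • toC B = 0 := by
    rw [Matrix.map_add _ (map_add _), map_smul_conj, toC_conj', toC_conj', Complex.conj_I, neg_smul] at hr
    have h2 : (2 : ℂ) • (Complex.I • toC B) = 0 := by
      rw [two_smul]
      have h3 := add_left_cancel hr
      nth_rewrite 1 [← h3]
      exact neg_add_cancel _
    exact (smul_eq_zero.1 h2).resolve_left two_ne_zero
  rw [h1, add_zero]

theorem QI.tw {X : Matrix n n ℂ} (h : QI X) : QI (tw T X) := (QI_Li.mul h).mul QI_Lt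

theorem QI.ut {X : Matrix n n ℂ} (h : QI X) : QI (ut T X) := (QI_Lt.mul h).mul QI_Li

/-- conjugation and the inverse passage -/
theorem ut_real (hT : T * T = 1) {X : Matrix n n ℂ} (h : X.map (starRingEnd ℂ) = X) : Tr T (ut T X) := by
  rw [Tr, ut, Matrix.map_mul, Matrix.map_mul, Lt_conj, Li_conj, h]
  calc toC T * (Li T * X * Lt T) * toC T = (toC T * Li T) * X * (Lt T * toC T) := by simp only [mul_assoc]
    _ = _ := by rw [T_mul_Li hT, Lt_mul_T hT]

end MH.QS94
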