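import Pool.Agent.Helper94.QS.Tw

/-!
Quaternionic skew-Hermitian forms (MP_b8862a_ag): the group, the boosts.
-/

set_option linter.unusedSectionVars false

open Matrix Kronecker

namespace MH.QS94

open MH.Her27

variable {ι : Type*} [Fintype ι] [DecidableEq ι]

section ring

variable (ι : Type*) [Fintype ι] [DecidableEq ι] (K : Type*) [CommRing K]

/-- the symmetric form -/
def Sm : Matrix (ι ⊕ ι) (ι ⊕ ι) K := fromBlocks 0 1 1 0

/-- the quaternionic structure -/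
def Jm : Matrix (ι ⊕ ι) (ι ⊕ ι) K := fromBlocks 0 (-1) 1 0

/-- the cocharacter -/
def Dm : Matrix (ι ⊕ ι) (ι ⊕ ι) K := fromBlocks 1 0 0 (-1)

/-- the projection to the positive part -/
def Pp : Matrix (ι ⊕ ι) (ι ⊕ ι) K := fromBlocks 1 0 0 0

/-- the projection to the negative part -/
def Pm : Matrix (ι ⊕ ι) (ι ⊕ ι) K := fromBlocks 0 0 0 1

variable {ι K}

theorem Sm_sq : Sm ι K * Sm ι K = 1 := by
  simp [Sm, fromBlocks_multiply, ← fromBlocks_one]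

theorem Sm_t : (Sm ι K)ᵀ = Sm ι K := by
  simp [Sm, fromBlocks_transpose]

theorem Jm_sq : Jm ι K * Jm ι K = -1 := by
  simp [Jm, fromBlocks_multiply, ← fromBlocks_one, fromBlocks_neg]

theorem Jm_t : (Jm ι K)ᵀ = -Jm ι K := by
  simp [Jm, fromBlocks_transpose, fromBlocks_neg]

theorem Sm_Jm : Sm ι K * Jm ι K = Dm ι K := by
  simp [Jm, Sm, Dm, fromBlocks_multiply]

theorem Jm_Sm : Jm ι K * Sm ι K = -Dm ι K := by
  simp [Jm, Sm, Dm, fromBlocks_multiply, fromBlocks_neg]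

theorem Dm_sq : Dm ι K * Dm ι K = 1 := by
  simp [Dm, fromBlocks_multiply, ← fromBlocks_one]

theorem Dm_t : (Dm ι K)ᵀ = Dm ι K := by
  simp [Dm, fromBlocks_transpose]

theorem Pp_t : (Pp ι K)ᵀ = Pp ι K := by
  simp [Pp, fromBlocks_transpose]

theorem Pm_t : (Pm ι K)ᵀ = Pm ι K := by
  simp [Pm, fromBlocks_transpose]

theorem Pp_sq : Pp ι K * Pp ι K = Pp ι K := by
  simp [Pp, fromBlocks_multiply]

theorem Pm_sq : Pm ι K * Pm ι K = Pm ι K := by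
  simp [Pm, fromBlocks_multiply]

theorem Pp_Pm : Pp ι K * Pm ι K = 0 := by
  simp [Pp, Pm, fromBlocks_multiply]

theorem Pm_Pp : Pm ι K * Pp ι K = 0 := by
  simp [Pp, Pm, fromBlocks_multiply]

theorem Pp_add : Pp ι K + Pm ι K = 1 := by
  simp [Pp, Pm, fromBlocks_add, ← fromBlocks_one]

theorem Pp_sub : Pp ι K - Pm ι K = Dm ι K := by
  simp [Pp, Pm, Dm, sub_eq_add_neg, fromBlocks_add, fromBlocks_neg]

theorem Dm_Pp : Dm ι K * Pp ι K = Pp ι K := by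
  simp [Pp, Dm, fromBlocks_multiply]

theorem Dm_Pm : Dm ι K * Pm ι K = -Pm ι K := by
  simp [Pm, Dm, fromBlocks_multiply, fromBlocks_neg]

theorem Pp_Dm : Pp ι K * Dm ι K = Pp ι K := by
  simp [Pp, Dm, fromBlocks_multiply]

theorem Pm_Dm : Pm ι K * Dm ι K = -Pm ι K := by
  simp [Pm, Dm, fromBlocks_multiply, fromBlocks_neg]

theorem Jm_Pp : Jm ι K * Pp ι K = Pm ι K * Jm ι K := by
  simp [Pp, Pm, Jm, fromBlocks_multiply]

theorem Jm_Pm : Jm ι K * Pm ι K = Pp ι K * Jm ι K := by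
  simp [Pp, Pm, Jm, fromBlocks_multiply]

theorem Sm_Pp : Sm ι K * Pp ι K = Pm ι K * Sm ι K := by
  simp [Pp, Pm, Sm, fromBlocks_multiply]

theorem Sm_Pm : Sm ι K * Pm ι K = Pp ι K * Sm ι K := by
  simp [Pp, Pm, Sm, fromBlocks_multiply]

theorem Pp_trace : (Pp ι K).trace = (Fintype.card ι : K) := by
  simp [Pp, Matrix.trace, Fintype.sum_sum_type]

theorem Pm_trace : (Pm ι K).trace = (Fintype.card ι : K) := by
  simp [Pm, Matrix.trace, Fintype.sum_sum_type]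

variable {L : Type*} [CommRing L] (f : K →+* L)

theorem one_map' {m : Type*} [DecidableEq m] : (1 : Matrix m m K).map f = 1 := Matrix.map_one _ (map_zero f) (map_one f)

theorem zero_map' {m m' : Type*} : (0 : Matrix m m' K).map f = 0 := by
  ext i j
  simp

theorem neg_one_map' {m : Type*} [DecidableEq m] : (-1 : Matrix m m K).map f = -1 := by
  ext i j
  rw [Matrix.map_apply, Matrix.neg_apply, Matrix.neg_apply, map_neg, Matrix.one_apply, Matrix.one_apply]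
  split_ifs <;> simp

theorem Sm_map : (Sm ι K).map f = Sm ι L := by
  rw [Sm, fromBlocks_map, one_map', zero_map']
  rfl

theorem Jm_map : (Jm ι K).map f = Jm ι L := by
  rw [Jm, fromBlocks_map, one_map', zero_map', neg_one_map']
  rfl

theorem Dm_map : (Dm ι K).map f = Dm ι L := by
  rw [Dm, fromBlocks_map, one_map', zero_map', neg_one_map']
  rfl

theorem Pp_map : (Pp ι K).map f = Pp ι L := by
  rw [Pp, fromBlocks_map, one_map', zero_map']
  rfl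

theorem Pm_map : (Pm ι K).map f = Pm ι L := by
  rw [Pm, fromBlocks_map, one_map', zero_map']
  rfl

end ring

/-! ### the group -/

/-- the group: isometries of the symmetric form that commute with the quaternionic structure -/
def GT (ι : Type*) [Fintype ι] [DecidableEq ι] : Set (Matrix (ι ⊕ ι) (ι ⊕ ι) ℂ) :=
  {g | gᵀ * Sm ι ℂ * g = Sm ι ℂ ∧ Jm ι ℂ * g.map (starRingEnd ℂ) = g * Jm ι ℂ}

theorem cont_map_conj {m : Type*} [Fintype m] : Continuous fun g : Matrix m m ℂ => g.map (starRingEnd ℂ) := by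
  refine continuous_matrix fun i j => ?_
  exact Complex.continuous_conj.comp ((continuous_apply j).comp (continuous_apply i))

theorem isClosed_GT : IsClosed (GT ι) := by
  have h1 : GT ι = {g | gᵀ * Sm ι ℂ * g = Sm ι ℂ} ∩ {g | Jm ι ℂ * g.map (starRingEnd ℂ) = g * Jm ι ℂ} := rfl
  rw [h1]
  refine IsClosed.inter ?_ ?_
  · exact isClosed_eq ((continuous_id.matrix_transpose.matrix_mul continuous_const).matrix_mul continuous_id)
      continuous_const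
  · exact isClosed_eq (continuous_const.matrix_mul cont_map_conj) (continuous_id.matrix_mul continuous_const)

instance baire_GT : BaireSpace (GT ι) := by
  have : LocallyCompactSpace (Matrix (ι ⊕ ι) (ι ⊕ ι) ℂ) :=
    inferInstanceAs (LocallyCompactSpace (ι ⊕ ι → ι ⊕ ι → ℂ))
  have : LocallyCompactSpace (GT ι) := isClosed_GT.locallyCompactSpace
  infer_instance

theorem one_mem_GT : (1 : Matrix (ι ⊕ ι) (ι ⊕ ι) ℂ) ∈ GT ι := by
  refine ⟨?_, ?_⟩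
  · rw [Matrix.transpose_one, one_mul, mul_one]
  · rw [one_map', mul_one, one_mul]

instance nonempty_GT : Nonempty (GT ι) := ⟨⟨1, one_mem_GT⟩⟩

/-- the inverse -/
def gi (g : Matrix (ι ⊕ ι) (ι ⊕ ι) ℂ) : Matrix (ι ⊕ ι) (ι ⊕ ι) ℂ := Sm ι ℂ * gᵀ * Sm ι ℂ

theorem gi_mul {g : Matrix (ι ⊕ ι) (ι ⊕ ι) ℂ} (hg : g ∈ GT ι) : gi g * g = 1 := by
  have h1 : gᵀ * Sm ι ℂ * g = Sm ι ℂ := hg.1
  rw [gi, mul_assoc, mul_assoc, ← mul_assoc (gᵀ), h1, Sm_sq]

theorem mul_gi {g : Matrix (ι ⊕ ι) (ι ⊕ ι) ℂ} (hg : g ∈ GT ι) : g * gi g = 1 := mul_eq_one_comm.1 (gi_mul hg)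

theorem gi_cont : Continuous (gi : Matrix (ι ⊕ ι) (ι ⊕ ι) ℂ → _) := by
  unfold gi
  exact (continuous_const.matrix_mul continuous_id.matrix_transpose).matrix_mul continuous_const

theorem mul_mem_GT {g h : Matrix (ι ⊕ ι) (ι ⊕ ι) ℂ} (hg : g ∈ GT ι) (hh : h ∈ GT ι) : g * h ∈ GT ι := by
  refine ⟨?_, ?_⟩
  · rw [Matrix.transpose_mul]
    calc hᵀ * gᵀ * Sm ι ℂ * (g * h) = hᵀ * (gᵀ * Sm ι ℂ * g) * h := by simp only [mul_assoc]
      _ = _ := by rw [hg.1, hh.1]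
  · rw [Matrix.map_mul, ← mul_assoc, hg.2, mul_assoc, hh.2, mul_assoc]

theorem gSg {g : Matrix (ι ⊕ ι) (ι ⊕ ι) ℂ} (hg : g ∈ GT ι) : g * Sm ι ℂ * gᵀ = Sm ι ℂ := by
  have h1 := mul_gi hg
  rw [gi] at h1
  calc g * Sm ι ℂ * gᵀ = (g * (Sm ι ℂ * gᵀ * Sm ι ℂ)) * Sm ι ℂ := by
        simp only [mul_assoc, Sm_sq, mul_one]
    _ = Sm ι ℂ := by rw [h1, one_mul]

theorem gi_mem {g : Matrix (ι ⊕ ι) (ι ⊕ ι) ℂ} (hg : g ∈ GT ι) : gi g ∈ GT ι := by
  refine ⟨?_, ?_⟩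
  · rw [gi, Matrix.transpose_mul, Matrix.transpose_mul, Matrix.transpose_transpose, Sm_t]
    calc Sm ι ℂ * (g * Sm ι ℂ) * Sm ι ℂ * (Sm ι ℂ * gᵀ * Sm ι ℂ)
        = Sm ι ℂ * g * Sm ι ℂ * (Sm ι ℂ * Sm ι ℂ) * gᵀ * Sm ι ℂ := by simp only [mul_assoc]
      _ = Sm ι ℂ * (g * Sm ι ℂ * gᵀ) * Sm ι ℂ := by rw [Sm_sq, mul_one]; simp only [mul_assoc]
      _ = Sm ι ℂ := by rw [gSg hg, Sm_sq, one_mul]
  · have h1 := mul_gi hg
    have h2 := gi_mul hg
    have h3 : g.map (starRingEnd ℂ) * (gi g).map (starRingEnd ℂ) = 1 := by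
      rw [← Matrix.map_mul, h1, one_map']
    calc Jm ι ℂ * (gi g).map (starRingEnd ℂ)
        = gi g * (g * Jm ι ℂ) * (gi g).map (starRingEnd ℂ) := by rw [← mul_assoc (gi g), h2, one_mul]
      _ = gi g * Jm ι ℂ * (g.map (starRingEnd ℂ) * (gi g).map (starRingEnd ℂ)) := by
          rw [← hg.2]; simp only [mul_assoc]
      _ = gi g * Jm ι ℂ := by rw [h3, mul_one]

/-! ### boosts -/

/-- the data of a boost -/
structure Dir (P Y : Matrix (ι ⊕ ι) (ι ⊕ ι) ℂ) : Prop where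
  PP : P * P = P
  PY : P * Y = Y
  YP : Y * P = Y
  YY : Y * Y = P
  Pt : Pᵀ = P
  SP : Sm ι ℂ * P = P * Sm ι ℂ
  Yt : Yᵀ * Sm ι ℂ = -(Sm ι ℂ * Y)
  DP : Dm ι ℂ * P = P * Dm ι ℂ
  DY : Dm ι ℂ * Y = -(Y * Dm ι ℂ)
  Pc : Jm ι ℂ * P.map (starRingEnd ℂ) = P * Jm ι ℂ
  Yc : Jm ι ℂ * Y.map (starRingEnd ℂ) = Y * Jm ι ℂ

/-- the boost -/
noncomputable def bst (P Y : Matrix (ι ⊕ ι) (ι ⊕ ι) ℂ) (u : ℝ) : Matrix (ι ⊕ ι) (ι ⊕ ι) ℂ :=
  1 + ((Real.sqrt (1 + u ^ 2) : ℂ) - 1) • P + (u : ℂ) • Y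

variable {P Y : Matrix (ι ⊕ ι) (ι ⊕ ι) ℂ}

theorem bst_zero : bst P Y 0 = 1 := by
  simp [bst]

theorem bst_cont : Continuous (bst P Y) := by
  unfold bst
  have h1 : Continuous fun u : ℝ => ((Real.sqrt (1 + u ^ 2) : ℂ) - 1) := by fun_prop
  have h2 : Continuous fun u : ℝ => (u : ℂ) := Complex.continuous_ofReal
  exact (continuous_const.add (h1.smul continuous_const)).add (h2.smul continuous_const)

theorem sq_c (u : ℝ) : (Real.sqrt (1 + u ^ 2) : ℂ) * (Real.sqrt (1 + u ^ 2) : ℂ) = 1 + (u : ℂ) * u := by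
  rw [← Complex.ofReal_mul, Real.mul_self_sqrt (by positivity)]
  push_cast
  ring

theorem Dir.bst_mul (h : Dir P Y) (u : ℝ) : bst P Y u * bst P Y (-u) = 1 := by
  obtain ⟨c, hc⟩ : ∃ c : ℂ, c = (Real.sqrt (1 + u ^ 2) : ℂ) := ⟨_, rfl⟩
  have h1 := sq_c u
  rw [bst, bst, neg_sq, ← hc]
  rw [← hc] at h1
  simp only [add_mul, mul_add, one_mul, mul_one, smul_mul_assoc, mul_smul_comm, h.PP, h.PY, h.YP, h.YY, smul_smul]
  push_cast
  have h2 : c * c - 1 - (u : ℂ) * u = 0 := by linear_combination h1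
  have h3 : (1 : Matrix (ι ⊕ ι) (ι ⊕ ι) ℂ) = 1 + (c * c - 1 - (u : ℂ) * u) • P := by rw [h2, zero_smul, add_zero]
  conv_rhs => rw [h3]
  module

theorem Dir.bst_S (h : Dir P Y) (u : ℝ) : (bst P Y u)ᵀ * Sm ι ℂ = Sm ι ℂ * bst P Y (-u) := by
  rw [bst, bst, neg_sq, Matrix.transpose_add, Matrix.transpose_add, Matrix.transpose_one, Matrix.transpose_smul,
    Matrix.transpose_smul, h.Pt, add_mul, add_mul, one_mul, smul_mul_assoc, smul_mul_assoc, h.Yt, ← h.SP, mul_add,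
    mul_add, mul_one, mul_smul_comm, mul_smul_comm]
  push_cast
  rw [smul_neg, neg_smul]

theorem Dir.bst_mem (h : Dir P Y) (u : ℝ) : bst P Y u ∈ GT ι := by
  refine ⟨?_, ?_⟩
  · rw [h.bst_S, mul_assoc]
    have h1 := h.bst_mul (-u)
    rw [neg_neg] at h1
    rw [h1, mul_one]
  · rw [bst, Matrix.map_add _ (map_add _), Matrix.map_add _ (map_add _), map_smul_conj, map_smul_conj, one_map',
      mul_add, mul_add, mul_smul_comm, mul_smul_comm, h.Pc, h.Yc, add_mul, add_mul, smul_mul_assoc, smul_mul_assoc,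
      mul_one, one_mul, map_sub, map_one, Complex.conj_ofReal, Complex.conj_ofReal]

theorem Dir.bst_D (h : Dir P Y) (u : ℝ) : bst P Y u * Dm ι ℂ = Dm ι ℂ * bst P Y (-u) := by
  have h1 : Y * Dm ι ℂ = -(Dm ι ℂ * Y) := by rw [h.DY, neg_neg]
  rw [bst, bst, neg_sq, add_mul, add_mul, one_mul, smul_mul_assoc, smul_mul_assoc, h1, ← h.DP, mul_add,
    mul_add, mul_one, mul_smul_comm, mul_smul_comm]
  push_cast
  rw [smul_neg, neg_smul]

/-- the odd part of the conjugated cocharacter -/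
theorem Dir.odd (h : Dir P Y) (u : ℝ) : bst P Y u * Dm ι ℂ * bst P Y (-u) - bst P Y (-u) * Dm ι ℂ * bst P Y u =
    (-4 * (Real.sqrt (1 + u ^ 2) : ℂ) * u) • (Dm ι ℂ * Y) := by
  have h1 := h.bst_D (-u)
  rw [neg_neg] at h1
  rw [h.bst_D, h1, mul_assoc, mul_assoc, ← mul_sub, ← mul_smul_comm]
  congr 1
  obtain ⟨c, hc⟩ : ∃ c : ℂ, c = (Real.sqrt (1 + u ^ 2) : ℂ) := ⟨_, rfl⟩
  rw [bst, bst, neg_sq, ← hc]
  simp only [add_mul, mul_add, one_mul, mul_one, smul_mul_assoc, mul_smul_comm, h.PP, h.PY, h.YP, h.YY, smul_smul]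
  push_cast
  module

end MH.QS94
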