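import Pool.Agent.Helper94.QS.Com

/-!
Quaternionic skew-Hermitian forms (MP_b8862a_ag): the matrices that commute with the Lie algebra on the alternating and
on the symmetric tensors.
-/

set_option linter.unusedSectionVars false

open Matrix Kronecker

namespace MH.QS94

open MH.Her27

variable {ι : Type*} [Fintype ι] [DecidableEq ι]

/-- a matrix that commutes with the Lie algebra -/
structure Cm (b : Matrix ((ι ⊕ ι) × (ι ⊕ ι)) ((ι ⊕ ι) × (ι ⊕ ι)) ℂ) : Prop where
  E : ∀ a c, a ≠ c → b * dv (Eb a c) = dv (Eb a c) * b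
  F : ∀ a c, a ≠ c → b * dv (Fb a c) = dv (Fb a c) * b

/-- there are at least three indices -/
def Three (ι : Type*) : Prop := ∀ a c : ι, ∃ d, d ≠ a ∧ d ≠ c

variable {b : Matrix ((ι ⊕ ι) × (ι ⊕ ι)) ((ι ⊕ ι) × (ι ⊕ ι)) ℂ}

theorem Cm.N (h : Cm b) (h3 : Three ι) {a d : ι} (had : a ≠ d) : b * dv (Nb a d) = dv (Nb a d) * b := by
  obtain ⟨c, hca, hcd⟩ := h3 a d
  rw [Nb_eq hca.symm had hcd, dv_br, mul_sub, sub_mul]
  have e1 := h.E a c hca.symm
  have e2 := h.F c d hcd
  congr 1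
  · rw [← mul_assoc, e1, mul_assoc, e2, mul_assoc]
  · rw [← mul_assoc, e2, mul_assoc, e1, mul_assoc]

theorem kk_of_sq {X : Matrix (ι ⊕ ι) (ι ⊕ ι) ℂ} (hX : X * X = 0) (h : b * dv X = dv X * b) :
    b * (X ⊗ₖ X) = (X ⊗ₖ X) * b := by
  have h1 : b * (dv X * dv X) = (dv X * dv X) * b := by rw [← mul_assoc, h, mul_assoc, h, mul_assoc]
  rw [dv_sq X hX, mul_smul_comm, smul_mul_assoc] at h1
  exact smul_right_injective _ (two_ne_zero) h1

/-- from the vectors of the positive part to all vectors -/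
structure Allx (b : Matrix ((ι ⊕ ι) × (ι ⊕ ι)) ((ι ⊕ ι) × (ι ⊕ ι)) ℂ) (σ l : ℂ) : Prop where
  sxx : ∀ a c, a ≠ c → Eig b l (wd σ (xx a) (xx c))
  sxy : ∀ a d, a ≠ d → Eig b l (wd σ (xx a) (yy d))
  syy : ∀ a d, a ≠ d → Eig b l (wd σ (yy a) (yy d))
  sdg : ∀ a c, a ≠ c → Eig b l (wd σ (xx a) (yy a) - σ • wd σ (xx c) (yy c))

theorem sg_eq {κ : Type*} [Fintype κ] [DecidableEq κ] (i j x y : κ) :
    Matrix.single i j (1 : ℂ) x y = (Pi.single i 1 : κ → ℂ) x * (Pi.single j 1 : κ → ℂ) y := by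
  rw [Matrix.single_apply, Pi.single_apply, Pi.single_apply]
  by_cases h1 : x = i
  · subst h1
    by_cases h2 : y = j
    · subst h2; simp
    · simp [h2, Ne.symm h2]
  · simp [h1, Ne.symm h1]

theorem Cm.allx (h : Cm b) (h3 : Three ι) {σ l : ℂ} (hσ : σ * σ = 1)
    (hx : ∀ a c, a ≠ c → Eig b l (wd σ (xx a) (xx c))) : Allx b σ l := by
  have hxy : ∀ a d, a ≠ d → Eig b l (wd σ (xx a) (yy d)) := by
    intro a d had
    obtain ⟨c, hca, hcd⟩ := h3 a d
    have h1 := (hx a c hca.symm).step (h.F d c hcd.symm)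
    rw [dv_wd, Fb_xd had hca.symm, Fb_xc hcd.symm, wd_zero_left, zero_add] at h1
    exact h1
  refine ⟨hx, hxy, fun a d had => ?_, fun a c hac => ?_⟩
  · obtain ⟨c, hca, hcd⟩ := h3 a d
    have h1 := (hxy c d hcd).step (h.F a c hca.symm)
    rw [dv_wd, Fb_xc hca.symm, Fb_y, wd_zero_right, add_zero] at h1
    exact h1
  · have h1 := (hx a c hac).step (h.F a c hac)
    rw [dv_wd, Fb_xc hac, Fb_xa hac, wd_neg_left, wd_swap hσ (xx c) (yy c)] at h1
    rw [sub_eq_neg_add]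
    exact h1

/-- the alternating part -/
theorem Cm.alt (h : Cm b) (h3 : Three ι) {a0 c0 : ι} (h0 : a0 ≠ c0)
    (he : ∀ w : (ι ⊕ ι) × (ι ⊕ ι) → ℂ, ∀ p q, (b *ᵥ w) (p, q) = -(b *ᵥ w) (q, p)) : ∃ l, Allx b (-1) l := by
  have hex : ∀ a c : ι, a ≠ c → ∃ l, Eig b l (wd (-1) (xx a) (xx c)) := by
    intro a c hac
    have hk := kk_of_sq (Eb_sq a c) (h.E a c hac)
    obtain ⟨w, hw⟩ : ∃ w, w = b *ᵥ wd (-1) (yy a) (yy c) := ⟨_, rfl⟩
    have hws : ∀ p q, w (p, q) = -w (q, p) := by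
      intro p q
      rw [hw]
      exact he _ p q
    have e1 : (Eb a c ⊗ₖ Eb a c) *ᵥ wd (-1) (yy a) (yy c) = wd (-1) (xx a) (xx c) := by
      rw [wd, Matrix.mulVec_add, Matrix.mulVec_smul, kron_tv, kron_tv, Eb_ya hac, Eb_yc hac, tv_neg_left, tv_neg_right,
        wd]
      module
    have e2 : (Eb a c ⊗ₖ Eb a c) *ᵥ w = w (Sum.inr a, Sum.inr c) • wd (-1) (xx a) (xx c) := by
      funext p
      obtain ⟨p, q⟩ := p
      have hcc : w (Sum.inr c, Sum.inr c) = 0 := by
        have := hws (Sum.inr c) (Sum.inr c)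
        linear_combination (1 / 2 : ℂ) * this
      have haa : w (Sum.inr a, Sum.inr a) = 0 := by
        have := hws (Sum.inr a) (Sum.inr a)
        linear_combination (1 / 2 : ℂ) * this
      have hca := hws (Sum.inr c) (Sum.inr a)
      have hrow : ∀ x y : ι ⊕ ι, Eb a c x y = (xx a x) * (yy c y) - (xx c x) * (yy a y) := by
        intro x y
        rw [Eb, Matrix.sub_apply, sg_eq, sg_eq]
        rfl
      have hsel : ∀ (m : ι) (f : ι ⊕ ι → ℂ), ∑ y, yy m y * f y = f (Sum.inr m) := by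
        intro m f
        simp [yy, Pi.single_apply]
      simp only [Matrix.mulVec, dotProduct, kroneckerMap_apply, Fintype.sum_prod_type, hrow, Pi.smul_apply, wd, tv,
        Pi.add_apply, smul_eq_mul]
      have e3 : ∀ x : ι ⊕ ι, ∑ y : ι ⊕ ι, (xx a p * yy c x - xx c p * yy a x) * (xx a q * yy c y - xx c q * yy a y) * w (x, y) =
          (xx a p * yy c x - xx c p * yy a x) * (xx a q * w (x, Sum.inr c) - xx c q * w (x, Sum.inr a)) := by
        intro x
        rw [← hsel c (fun y => w (x, y)), ← hsel a (fun y => w (x, y)), Finset.mul_sum, Finset.mul_sum,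
          ← Finset.sum_sub_distrib, Finset.mul_sum]
        refine Finset.sum_congr rfl fun y _ => ?_
        ring
      simp only [e3]
      have e4 : ∑ x : ι ⊕ ι, (xx a p * yy c x - xx c p * yy a x) * (xx a q * w (x, Sum.inr c) - xx c q * w (x, Sum.inr a)) =
          xx a p * (xx a q * w (Sum.inr c, Sum.inr c) - xx c q * w (Sum.inr c, Sum.inr a)) -
            xx c p * (xx a q * w (Sum.inr a, Sum.inr c) - xx c q * w (Sum.inr a, Sum.inr a)) := by
        rw [← hsel c (fun x => xx a q * w (x, Sum.inr c) - xx c q * w (x, Sum.inr a)),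
          ← hsel a (fun x => xx a q * w (x, Sum.inr c) - xx c q * w (x, Sum.inr a)), Finset.mul_sum, Finset.mul_sum,
          ← Finset.sum_sub_distrib]
        refine Finset.sum_congr rfl fun y _ => ?_
        ring
      rw [e4, hcc, haa, hca]
      ring
    refine ⟨w (Sum.inr a, Sum.inr c), ?_⟩
    rw [Eig, ← e2, hw, Matrix.mulVec_mulVec, ← hk, ← Matrix.mulVec_mulVec, e1]
  choose! lx hlx using hex
  have hne : ∀ a c : ι, a ≠ c → wd (-1) (xx a) (xx c) ≠ 0 := by
    intro a c hac hz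
    have h1 := congrFun hz (Sum.inl a, Sum.inl c)
    simp only [wd, tv, xx, Pi.add_apply, Pi.smul_apply, smul_eq_mul, Pi.single_apply, Pi.zero_apply, Sum.inl.injEq,
      if_neg hac, if_neg hac.symm, if_true] at h1
    norm_num at h1
  have hsym : ∀ a c : ι, a ≠ c → lx a c = lx c a := by
    intro a c hac
    have h1 := hlx c a hac.symm
    rw [wd_swap (by norm_num) (xx a) (xx c)] at h1
    exact (hlx a c hac).unique (Eig.of_smul (by norm_num) h1) (hne a c hac)
  have hmv : ∀ a c d : ι, a ≠ c → d ≠ a → d ≠ c → lx a d = lx c d := by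
    intro a c d hac hda hdc
    have h1 := (hlx a d hda.symm).step (h.N h3 (a := c) (d := a) hac.symm)
    rw [dv_wd, Nb_xd, Nb_xc hda, wd_zero_right, add_zero] at h1
    exact (h1.unique (hlx c d hdc.symm) (hne c d hdc.symm))
  have hmv' : ∀ a c d : ι, c ≠ a → d ≠ a → lx a c = lx a d := by
    intro a c d hca hda
    by_cases hcd : c = d
    · rw [hcd]
    · rw [hsym a c hca.symm, hsym a d hda.symm]
      exact hmv c d a hcd hca.symm hda.symm
  refine ⟨lx a0 c0, h.allx h3 (by norm_num) fun a c hac => ?_⟩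
  have h1 : lx a c = lx a0 c0 := by
    by_cases haa : a = a0
    · rw [haa]
      exact hmv' a0 c c0 (by rw [← haa]; exact hac.symm) h0.symm
    · rw [hmv' a c a0 hac.symm (Ne.symm haa), hsym a a0 haa]
      exact hmv' a0 a c0 haa h0.symm
  rw [← h1]
  exact hlx a c hac

/-- the symmetric part -/
theorem Cm.sym (h : Cm b) (h3 : Three ι) {a0 : ι} : ∃ l, Allx b 1 l ∧ (∀ a, Eig b l (tv (xx a) (xx a))) ∧
    ∀ a, Eig b l (tv (yy a) (yy a)) := by
  have hex : ∀ a : ι, ∃ l, Eig b l (tv (xx a) (xx a)) := by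
    intro a
    obtain ⟨c, hca, -⟩ := h3 a a
    obtain ⟨d, hda, hdc⟩ := h3 a c
    have hk1 := kk_of_sq (Nb_sq hda.symm) (h.N h3 hda.symm)
    have hk2 := kk_of_sq (Eb_sq d c) (h.E d c hdc)
    have hk : b * (Matrix.single (Sum.inl a) (Sum.inr c) 1 ⊗ₖ Matrix.single (Sum.inl a) (Sum.inr c) 1) =
        (Matrix.single (Sum.inl a) (Sum.inr c) 1 ⊗ₖ Matrix.single (Sum.inl a) (Sum.inr c) 1) * b := by
      rw [← Nb_Eb hdc.symm hca.symm, Matrix.mul_kronecker_mul, ← mul_assoc, hk1, mul_assoc, hk2, mul_assoc]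
    obtain ⟨w, hw⟩ : ∃ w, w = b *ᵥ tv (yy c) (yy c) := ⟨_, rfl⟩
    have e1 : (Matrix.single (Sum.inl a) (Sum.inr c) (1 : ℂ) ⊗ₖ Matrix.single (Sum.inl a) (Sum.inr c) (1 : ℂ)) *ᵥ
        tv (yy c) (yy c) = tv (xx a) (xx a) := by
      rw [kron_tv, yy, single_mv, if_pos rfl]
      rfl
    have e2 : (Matrix.single (Sum.inl a) (Sum.inr c) (1 : ℂ) ⊗ₖ Matrix.single (Sum.inl a) (Sum.inr c) (1 : ℂ)) *ᵥ w =
        w (Sum.inr c, Sum.inr c) • tv (xx a) (xx a) := by
      rw [Matrix.single_kronecker_single, one_mul, Matrix.single_mulVec_eq, one_mul]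
      congr 1
      funext p
      obtain ⟨p, q⟩ := p
      simp only [Pi.single_apply, tv, xx, Prod.mk.injEq]
      by_cases h1 : p = Sum.inl a <;> by_cases h2 : q = Sum.inl a <;> simp [h1, h2]
    refine ⟨w (Sum.inr c, Sum.inr c), ?_⟩
    rw [Eig, ← e2, hw, Matrix.mulVec_mulVec, ← hk, ← Matrix.mulVec_mulVec, e1]
  choose lx hlx using hex
  have hne : ∀ a c : ι, a ≠ c → wd 1 (xx a) (xx c) ≠ 0 := by
    intro a c hac hz
    have h1 := congrFun hz (Sum.inl a, Sum.inl c)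
    simp only [wd, tv, xx, Pi.add_apply, Pi.smul_apply, smul_eq_mul, Pi.single_apply, Pi.zero_apply, Sum.inl.injEq,
      if_neg hac, if_neg hac.symm, if_true] at h1
    norm_num at h1
  have hxc : ∀ a c : ι, a ≠ c → Eig b (lx a) (wd 1 (xx a) (xx c)) := by
    intro a c hac
    have h1 := (hlx a).step (h.N h3 (a := c) (d := a) hac.symm)
    rw [dv_tv, Nb_xd] at h1
    have h2 : wd 1 (xx a) (xx c) = tv (xx c) (xx a) + tv (xx a) (xx c) := by
      rw [wd, one_smul, add_comm]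
    rw [h2]
    exact h1
  have hall : ∀ a, lx a = lx a0 := by
    intro a
    by_cases haa : a = a0
    · rw [haa]
    · have h1 := hxc a a0 haa
      have h2 := hxc a0 a (Ne.symm haa)
      rw [wd_swap (by norm_num), one_smul] at h2
      exact h1.unique h2 (hne a a0 haa)
  have hA : Allx b 1 (lx a0) := h.allx h3 (by norm_num) fun a c hac => by
    rw [← hall a]
    exact hxc a c hac
  refine ⟨lx a0, hA, fun a => by rw [← hall a]; exact hlx a, fun a => ?_⟩
  obtain ⟨c, hca, -⟩ := h3 a a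
  have h1 := (hA.sxy c a hca).step (h.F a c hca.symm)
  rw [dv_wd, Fb_xc hca.symm, Fb_y, wd_zero_right, add_zero, wd, one_smul, ← two_smul ℂ] at h1
  exact Eig.of_smul two_ne_zero h1

end MH.QS94
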