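import Pool.Agent.Helper94.QS.Her

/-!
Quaternionic skew-Hermitian forms (MP_b8862a_ag): the elements of the Lie algebra, the matrices that commute with them.
-/

set_option linter.unusedSectionVars false

open Matrix Kronecker

namespace MH.QS94

open MH.Her27

section vec

variable {κ : Type*} [Fintype κ] [DecidableEq κ]

/-- the tensor product of two vectors -/
def tv (u v : κ → ℂ) : κ × κ → ℂ := fun x => u x.1 * v x.2

theorem kron_tv (A B : Matrix κ κ ℂ) (u v : κ → ℂ) : (A ⊗ₖ B) *ᵥ tv u v = tv (A *ᵥ u) (B *ᵥ v) := by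
  funext x
  simp only [Matrix.mulVec, dotProduct, kroneckerMap_apply, tv, Fintype.sum_prod_type, Finset.sum_mul_sum]
  refine Finset.sum_congr rfl fun i _ => Finset.sum_congr rfl fun j _ => ?_
  ring

theorem tv_add_left (u u' v : κ → ℂ) : tv (u + u') v = tv u v + tv u' v := by
  funext x
  simp only [tv, Pi.add_apply, add_mul]

theorem tv_add_right (u v v' : κ → ℂ) : tv u (v + v') = tv u v + tv u v' := by
  funext x
  simp only [tv, Pi.add_apply, mul_add]

theorem tv_smul_left (c : ℂ) (u v : κ → ℂ) : tv (c • u) v = c • tv u v := by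
  funext x
  simp only [tv, Pi.smul_apply, smul_eq_mul, mul_assoc]

theorem tv_smul_right (c : ℂ) (u v : κ → ℂ) : tv u (c • v) = c • tv u v := by
  funext x
  simp only [tv, Pi.smul_apply, smul_eq_mul]
  ring

theorem tv_zero_left (v : κ → ℂ) : tv 0 v = 0 := by
  funext x
  simp [tv]

theorem tv_zero_right (v : κ → ℂ) : tv v 0 = 0 := by
  funext x
  simp [tv]

theorem tv_neg_left (u v : κ → ℂ) : tv (-u) v = -tv u v := by
  funext x
  simp [tv]

theorem tv_neg_right (u v : κ → ℂ) : tv u (-v) = -tv u v := by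
  funext x
  simp [tv]

/-- the symmetrised tensor product -/
def wd (σ : ℂ) (u v : κ → ℂ) : κ × κ → ℂ := tv u v + σ • tv v u

theorem wd_zero_left (σ : ℂ) (v : κ → ℂ) : wd σ 0 v = 0 := by rw [wd, tv_zero_left, tv_zero_right, smul_zero, add_zero]

theorem wd_zero_right (σ : ℂ) (v : κ → ℂ) : wd σ v 0 = 0 := by rw [wd, tv_zero_left, tv_zero_right, smul_zero, add_zero]

theorem wd_neg_left (σ : ℂ) (u v : κ → ℂ) : wd σ (-u) v = -wd σ u v := by
  rw [wd, wd, tv_neg_left, tv_neg_right, smul_neg, neg_add]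

theorem wd_neg_right (σ : ℂ) (u v : κ → ℂ) : wd σ u (-v) = -wd σ u v := by
  rw [wd, wd, tv_neg_left, tv_neg_right, smul_neg, neg_add]

theorem wd_swap {σ : ℂ} (hσ : σ * σ = 1) (u v : κ → ℂ) : wd σ v u = σ • wd σ u v := by
  rw [wd, wd, smul_add, smul_smul, hσ, one_smul, add_comm]

/-- the derivation -/
def dv (X : Matrix κ κ ℂ) : Matrix (κ × κ) (κ × κ) ℂ := X ⊗ₖ (1 : Matrix κ κ ℂ) + (1 : Matrix κ κ ℂ) ⊗ₖ X

theorem dv_add (X Y : Matrix κ κ ℂ) : dv (X + Y) = dv X + dv Y := by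
  rw [dv, dv, dv, Matrix.add_kronecker, Matrix.kronecker_add]
  abel

theorem dv_sub (X Y : Matrix κ κ ℂ) : dv (X - Y) = dv X - dv Y := by
  rw [dv, dv, dv, sub_kron, kron_sub]
  abel

theorem dv_smul (c : ℂ) (X : Matrix κ κ ℂ) : dv (c • X) = c • dv X := by
  rw [dv, dv, Matrix.smul_kronecker, Matrix.kronecker_smul, smul_add]

theorem dv_br (X Y : Matrix κ κ ℂ) : dv (X * Y - Y * X) = dv X * dv Y - dv Y * dv X := by
  rw [dv_sub]
  simp only [dv, mul_add, add_mul, ← Matrix.mul_kronecker_mul, one_mul, mul_one]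
  abel

theorem dv_sq (X : Matrix κ κ ℂ) (h : X * X = 0) : dv X * dv X = (2 : ℂ) • (X ⊗ₖ X) := by
  have e1 : (0 : Matrix κ κ ℂ) ⊗ₖ (1 : Matrix κ κ ℂ) = 0 := zero_kron' _
  have e2 : (1 : Matrix κ κ ℂ) ⊗ₖ (0 : Matrix κ κ ℂ) = 0 := kron_zero' _
  simp only [dv, mul_add, add_mul, ← Matrix.mul_kronecker_mul, one_mul, mul_one, h, e1, e2, zero_add, add_zero]
  rw [two_smul]

theorem dv_conj {g g' X : Matrix κ κ ℂ} (h : g * g' = 1) : (g ⊗ₖ g) * dv X * (g' ⊗ₖ g') = dv (g * X * g') := by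
  simp only [dv, mul_add, add_mul, ← Matrix.mul_kronecker_mul, mul_one, h]

theorem dv_tv (X : Matrix κ κ ℂ) (u v : κ → ℂ) : dv X *ᵥ tv u v = tv (X *ᵥ u) v + tv u (X *ᵥ v) := by
  rw [dv, Matrix.add_mulVec, kron_tv, kron_tv, Matrix.one_mulVec, Matrix.one_mulVec]

theorem dv_wd (σ : ℂ) (X : Matrix κ κ ℂ) (u v : κ → ℂ) : dv X *ᵥ wd σ u v = wd σ (X *ᵥ u) v + wd σ u (X *ᵥ v) := by
  rw [wd, Matrix.mulVec_add, Matrix.mulVec_smul, dv_tv, dv_tv, wd, wd, smul_add]
  abel

/-- eigenvectors -/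
def Eig (b : Matrix (κ × κ) (κ × κ) ℂ) (l : ℂ) (w : κ × κ → ℂ) : Prop := b *ᵥ w = l • w

variable {b : Matrix (κ × κ) (κ × κ) ℂ} {l : ℂ}

theorem Eig.add {w w' : κ × κ → ℂ} (h : Eig b l w) (h' : Eig b l w') : Eig b l (w + w') := by
  rw [Eig, Matrix.mulVec_add, h, h', smul_add]

theorem Eig.sub {w w' : κ × κ → ℂ} (h : Eig b l w) (h' : Eig b l w') : Eig b l (w - w') := by
  rw [Eig, Matrix.mulVec_sub, h, h', smul_sub]

theorem Eig.smul {w : κ × κ → ℂ} (h : Eig b l w) (c : ℂ) : Eig b l (c • w) := by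
  rw [Eig, Matrix.mulVec_smul, h, smul_comm]

theorem Eig.neg {w : κ × κ → ℂ} (h : Eig b l w) : Eig b l (-w) := by
  rw [Eig, Matrix.mulVec_neg, h, smul_neg]

theorem Eig.zero : Eig b l (0 : κ × κ → ℂ) := by
  rw [Eig, Matrix.mulVec_zero, smul_zero]

theorem Eig.sum {α : Type*} (s : Finset α) (f : α → κ × κ → ℂ) (h : ∀ a ∈ s, Eig b l (f a)) : Eig b l (∑ a ∈ s, f a) := by
  classical
  induction s using Finset.induction_on with
  | empty => rw [Finset.sum_empty]; exact Eig.zero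
  | insert a s ha ih =>
    rw [Finset.sum_insert ha]
    exact (h a (Finset.mem_insert_self _ _)).add (ih fun c hc => h c (Finset.mem_insert_of_mem hc))

theorem Eig.of_smul {w : κ × κ → ℂ} {c : ℂ} (hc : c ≠ 0) (h : Eig b l (c • w)) : Eig b l w := by
  have := h.smul c⁻¹
  rwa [smul_smul, inv_mul_cancel₀ hc, one_smul] at this

theorem Eig.step {w : κ × κ → ℂ} (h : Eig b l w) {X : Matrix (κ × κ) (κ × κ) ℂ} (hX : b * X = X * b) :
    Eig b l (X *ᵥ w) := by
  rw [Eig, Matrix.mulVec_mulVec, hX, ← Matrix.mulVec_mulVec, h, Matrix.mulVec_smul]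

theorem Eig.unique {w : κ × κ → ℂ} {l' : ℂ} (h : Eig b l w) (h' : Eig b l' w) (hw : w ≠ 0) : l = l' := by
  rw [Eig] at h h'
  rw [h] at h'
  exact smul_left_injective ℂ hw h'

end vec

variable {ι : Type*} [Fintype ι] [DecidableEq ι]

/-! ### the basis -/

/-- the positive basis vectors -/
def xx (a : ι) : ι ⊕ ι → ℂ := Pi.single (Sum.inl a) 1

/-- the negative basis vectors -/
def yy (a : ι) : ι ⊕ ι → ℂ := Pi.single (Sum.inr a) 1

/-- elements of the Lie algebra -/
def Eb (a c : ι) : Matrix (ι ⊕ ι) (ι ⊕ ι) ℂ :=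
  Matrix.single (Sum.inl a) (Sum.inr c) 1 - Matrix.single (Sum.inl c) (Sum.inr a) 1

/-- elements of the Lie algebra -/
def Fb (a c : ι) : Matrix (ι ⊕ ι) (ι ⊕ ι) ℂ :=
  Matrix.single (Sum.inr a) (Sum.inl c) 1 - Matrix.single (Sum.inr c) (Sum.inl a) 1

theorem single_mv {κ : Type*} [Fintype κ] [DecidableEq κ] (i j k : κ) :
    Matrix.single i j (1 : ℂ) *ᵥ Pi.single k 1 = if j = k then Pi.single i 1 else 0 := by
  funext x
  rw [Matrix.mulVec_single_one, Matrix.col_apply, Matrix.single_apply]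
  by_cases h1 : j = k
  · rw [if_pos h1]
    by_cases h2 : i = x
    · subst h2
      simp [h1]
    · simp [h2, Ne.symm h2]
  · simp [h1]

theorem Eb_yc {a c : ι} (h : a ≠ c) : Eb a c *ᵥ yy c = xx a := by
  rw [Eb, Matrix.sub_mulVec, yy, single_mv, single_mv, if_pos rfl, if_neg (fun hh => h (Sum.inr_injective hh)), sub_zero]
  rfl

theorem Eb_ya {a c : ι} (h : a ≠ c) : Eb a c *ᵥ yy a = -xx c := by
  rw [Eb, Matrix.sub_mulVec, yy, single_mv, single_mv, if_pos rfl, if_neg (fun hh => h (Sum.inr_injective hh).symm),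
    zero_sub]
  rfl

theorem Eb_yd {a c d : ι} (h1 : d ≠ a) (h2 : d ≠ c) : Eb a c *ᵥ yy d = 0 := by
  rw [Eb, Matrix.sub_mulVec, yy, single_mv, single_mv, if_neg (fun hh => h1 (Sum.inr_injective hh).symm),
    if_neg (fun hh => h2 (Sum.inr_injective hh).symm), sub_zero]

theorem Eb_x {a c d : ι} : Eb a c *ᵥ xx d = 0 := by
  rw [Eb, Matrix.sub_mulVec, xx, single_mv, single_mv, if_neg (by simp), if_neg (by simp), sub_zero]

theorem Fb_xc {a c : ι} (h : a ≠ c) : Fb a c *ᵥ xx c = yy a := by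
  rw [Fb, Matrix.sub_mulVec, xx, single_mv, single_mv, if_pos rfl, if_neg (fun hh => h (Sum.inl_injective hh)), sub_zero]
  rfl

theorem Fb_xa {a c : ι} (h : a ≠ c) : Fb a c *ᵥ xx a = -yy c := by
  rw [Fb, Matrix.sub_mulVec, xx, single_mv, single_mv, if_pos rfl, if_neg (fun hh => h (Sum.inl_injective hh).symm),
    zero_sub]
  rfl

theorem Fb_xd {a c d : ι} (h1 : d ≠ a) (h2 : d ≠ c) : Fb a c *ᵥ xx d = 0 := by
  rw [Fb, Matrix.sub_mulVec, xx, single_mv, single_mv, if_neg (fun hh => h1 (Sum.inl_injective hh).symm),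
    if_neg (fun hh => h2 (Sum.inl_injective hh).symm), sub_zero]

theorem Fb_y {a c d : ι} : Fb a c *ᵥ yy d = 0 := by
  rw [Fb, Matrix.sub_mulVec, yy, single_mv, single_mv, if_neg (by simp), if_neg (by simp), sub_zero]

/-- the element `x_d ↦ x_a`, `y_a ↦ - y_d` -/
def Nb (a d : ι) : Matrix (ι ⊕ ι) (ι ⊕ ι) ℂ :=
  Matrix.single (Sum.inl a) (Sum.inl d) 1 - Matrix.single (Sum.inr d) (Sum.inr a) 1

theorem ss {κ : Type*} [Fintype κ] [DecidableEq κ] (i j k l : κ) :
    Matrix.single i j (1 : ℂ) * Matrix.single k l 1 = if j = k then Matrix.single i l 1 else 0 := by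
  by_cases h : j = k
  · subst h
    rw [if_pos rfl, Matrix.single_mul_single_same, mul_one]
  · rw [if_neg h, Matrix.single_mul_single_of_ne _ _ _ _ h]

theorem Nb_eq {a c d : ι} (hac : a ≠ c) (had : a ≠ d) (hcd : c ≠ d) : Nb a d = Eb a c * Fb c d - Fb c d * Eb a c := by
  rw [Nb, Eb, Fb]
  simp only [mul_sub, sub_mul, ss, Sum.inl.injEq, Sum.inr.injEq, if_true, if_neg hac, if_neg had, if_neg hcd,
    if_neg hac.symm, if_neg had.symm, if_neg hcd.symm]
  abel

theorem Nb_sq {a d : ι} (had : a ≠ d) : Nb a d * Nb a d = 0 := by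
  rw [Nb]
  simp [mul_sub, sub_mul, ss, had, had.symm]

theorem Eb_sq (a c : ι) : Eb a c * Eb a c = 0 := by
  rw [Eb]
  simp [mul_sub, sub_mul, ss]

theorem Nb_xd {a d : ι} : Nb a d *ᵥ xx d = xx a := by
  rw [Nb, Matrix.sub_mulVec, xx, single_mv, single_mv, if_pos rfl, if_neg (by simp), sub_zero]
  rfl

theorem Nb_xc {a c d : ι} (h : c ≠ d) : Nb a d *ᵥ xx c = 0 := by
  rw [Nb, Matrix.sub_mulVec, xx, single_mv, single_mv, if_neg (fun hh => h (Sum.inl_injective hh).symm),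
    if_neg (by simp), sub_zero]

theorem Nb_Eb {a c d : ι} (hcd : c ≠ d) (hac : a ≠ c) : Nb a d * Eb d c = Matrix.single (Sum.inl a) (Sum.inr c) 1 := by
  rw [Nb, Eb]
  simp [mul_sub, sub_mul, ss, hcd, hcd.symm]

/-! ### the directions -/

/-- the projection of the boost -/
def Pd (a c : ι) : Matrix (ι ⊕ ι) (ι ⊕ ι) ℂ :=
  fromBlocks (Matrix.single a a 1 + Matrix.single c c 1) 0 0 (Matrix.single a a 1 + Matrix.single c c 1)

/-- the direction of the boost -/
noncomputable def Yd (a c : ι) (z : ℂ) : Matrix (ι ⊕ ι) (ι ⊕ ι) ℂ :=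
  fromBlocks 0 (z • (Matrix.single a c 1 - Matrix.single c a 1))
    (-(starRingEnd ℂ z • (Matrix.single a c 1 - Matrix.single c a 1))) 0

theorem DYd (a c : ι) (z : ℂ) : Dm ι ℂ * Yd a c z = z • Eb a c + starRingEnd ℂ z • Fb a c := by
  rw [Dm, Yd, fromBlocks_multiply, Eb, Fb]
  ext i j
  rcases i with i | i <;> rcases j with j | j <;> simp [Matrix.single_apply]
  ring

theorem ep_sq {a c : ι} (h : a ≠ c) : (Matrix.single a c (1 : ℂ) - Matrix.single c a 1) *
    (Matrix.single a c 1 - Matrix.single c a 1) = -(Matrix.single a a 1 + Matrix.single c c 1) := by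
  simp only [mul_sub, sub_mul, ss, if_neg h, if_neg h.symm, if_true]
  abel

theorem ep_Pi {a c : ι} (h : a ≠ c) : (Matrix.single a c (1 : ℂ) - Matrix.single c a 1) *
    (Matrix.single a a 1 + Matrix.single c c 1) = Matrix.single a c (1 : ℂ) - Matrix.single c a 1 := by
  simp only [mul_add, sub_mul, ss, if_neg h, if_neg h.symm, if_true]
  abel

theorem Pi_ep {a c : ι} (h : a ≠ c) : (Matrix.single a a (1 : ℂ) + Matrix.single c c 1) *
    (Matrix.single a c 1 - Matrix.single c a 1) = Matrix.single a c (1 : ℂ) - Matrix.single c a 1 := by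
  simp only [mul_sub, add_mul, ss, if_neg h, if_neg h.symm, if_true]
  abel

theorem Pi_Pi {a c : ι} (h : a ≠ c) : (Matrix.single a a (1 : ℂ) + Matrix.single c c 1) *
    (Matrix.single a a 1 + Matrix.single c c 1) = Matrix.single a a (1 : ℂ) + Matrix.single c c 1 := by
  simp only [mul_add, add_mul, ss, if_neg h, if_neg h.symm, if_true]
  abel

theorem dir_Yd {a c : ι} (h : a ≠ c) {z : ℂ} (hz : z * starRingEnd ℂ z = 1) : Dir (Pd a c) (Yd a c z) := by
  have hz' : starRingEnd ℂ z * z = 1 := by rw [mul_comm, hz]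
  obtain ⟨p, hp⟩ : ∃ p, p = Matrix.single a a (1 : ℂ) + Matrix.single c c 1 := ⟨_, rfl⟩
  obtain ⟨q, hq⟩ : ∃ q, q = Matrix.single a c (1 : ℂ) - Matrix.single c a 1 := ⟨_, rfl⟩
  have e1 : q * q = -p := by rw [hp, hq, ep_sq h]
  have e2 : q * p = q := by rw [hp, hq, ep_Pi h]
  have e3 : p * q = q := by rw [hp, hq, Pi_ep h]
  have e4 : p * p = p := by rw [hp, Pi_Pi h]
  have e5 : pᵀ = p := by rw [hp, Matrix.transpose_add, Matrix.transpose_single, Matrix.transpose_single]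
  have e6 : qᵀ = -q := by
    rw [hq, Matrix.transpose_sub, Matrix.transpose_single, Matrix.transpose_single, neg_sub]
  have e7 : p.map (starRingEnd ℂ) = p := by
    rw [hp, Matrix.map_add _ (map_add _)]
    ext i j
    simp [Matrix.single_apply, apply_ite (starRingEnd ℂ)]
  have e8 : q.map (starRingEnd ℂ) = q := by
    rw [hq]
    ext i j
    simp [Matrix.single_apply, apply_ite (starRingEnd ℂ)]
  have hP : Pd a c = fromBlocks p 0 0 p := by rw [hp]; rfl
  have hY : Yd a c z = fromBlocks 0 (z • q) (-(starRingEnd ℂ z • q)) 0 := by rw [hq]; rfl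
  rw [hP, hY]
  constructor
  · simp [fromBlocks_multiply, e4]
  · simp [fromBlocks_multiply, e3]
  · simp [fromBlocks_multiply, e2]
  · simp [fromBlocks_multiply, e1, smul_smul, hz, hz']
  · simp [fromBlocks_transpose, e5]
  · simp [Sm, fromBlocks_multiply]
  · simp [Sm, fromBlocks_multiply, fromBlocks_transpose, e6, fromBlocks_neg]
  · simp [Dm, fromBlocks_multiply]
  · simp [Dm, fromBlocks_multiply, fromBlocks_neg]
  · rw [fromBlocks_map, e7, zero_map']
    simp [Jm, fromBlocks_multiply]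
  · have e9 : (-(starRingEnd ℂ z • q)).map (starRingEnd ℂ) = -(z • q) := by
      ext i j
      have := congrFun (congrFun e8 i) j
      rw [Matrix.map_apply] at this
      simp [this]
    rw [fromBlocks_map, e9, map_smul_conj, e8, zero_map']
    simp [Jm, fromBlocks_multiply]

end MH.QS94
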