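import Pool.Agent.Helper94.QS.Cmt

/-!
Quaternionic skew-Hermitian forms (MP_b8862a_ag): the endomorphisms of a generic member of the family.
-/

set_option linter.unusedSectionVars false

open Matrix Kronecker

namespace MH.QS94

open MH.Her27

variable {ι : Type*} [Fintype ι] [DecidableEq ι]
variable {e : Matrix ((ι ⊕ ι) × (ι ⊕ ι)) ((ι ⊕ ι) × (ι ⊕ ι)) ℚ}

theorem gi_mul' (g h : Matrix (ι ⊕ ι) (ι ⊕ ι) ℂ) : gi (g * h) = gi h * gi g := by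
  rw [gi, gi, gi, Matrix.transpose_mul]
  calc Sm ι ℂ * (hᵀ * gᵀ) * Sm ι ℂ = Sm ι ℂ * hᵀ * 1 * gᵀ * Sm ι ℂ := by rw [mul_one]; simp only [mul_assoc]
    _ = _ := by rw [← Sm_sq (ι := ι) (K := ℂ)]; simp only [mul_assoc]

theorem Dir.gi_bst {P Y : Matrix (ι ⊕ ι) (ι ⊕ ι) ℂ} (h : Dir P Y) (u : ℝ) : gi (bst P Y u) = bst P Y (-u) := by
  rw [gi, mul_assoc, h.bst_S, ← mul_assoc, Sm_sq, one_mul]

theorem dv_D : dv (Dm ι ℂ) = (2 : ℂ) • (R0 ι 2 - R0 ι 0) := by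
  rw [R_two, R_zero, dv, ← Pp_sub, ← Pp_add (ι := ι) (K := ℂ)]
  simp only [sub_kron, Matrix.add_kronecker, Matrix.kronecker_add, kron_sub]
  rw [two_smul]
  abel

theorem Ed.dvD (h : Ed e) : dv (Dm ι ℂ) * toC e = toC e * dv (Dm ι ℂ) := by
  rw [dv_D, smul_mul_assoc, mul_smul_comm, sub_mul, mul_sub, h.comR, h.comR]

theorem dv_gD {g : Matrix (ι ⊕ ι) (ι ⊕ ι) ℂ} (hg : g ∈ GT ι) :
    dv (g * Dm ι ℂ * gi g) = (g ⊗ₖ g) * dv (Dm ι ℂ) * (gi g ⊗ₖ gi g) := (dv_conj (mul_gi hg)).symm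

theorem Ed.dvZ (h : Ed e) {g : Matrix (ι ⊕ ι) (ι ⊕ ι) ℂ} (hg : g ∈ GT ι) :
    dv (g * Dm ι ℂ * gi g) * toC e = toC e * dv (g * Dm ι ℂ * gi g) := by
  rw [dv_gD hg]
  calc (g ⊗ₖ g) * dv (Dm ι ℂ) * (gi g ⊗ₖ gi g) * toC e
      = (g ⊗ₖ g) * dv (Dm ι ℂ) * ((gi g ⊗ₖ gi g) * toC e) := by simp only [mul_assoc]
    _ = (g ⊗ₖ g) * (dv (Dm ι ℂ) * toC e) * (gi g ⊗ₖ gi g) := by
        rw [h.comg _ (gi_mem hg)]; simp only [mul_assoc]
    _ = ((g ⊗ₖ g) * toC e) * dv (Dm ι ℂ) * (gi g ⊗ₖ gi g) := by rw [h.dvD]; simp only [mul_assoc]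
    _ = _ := by rw [h.comg _ hg]; simp only [mul_assoc]

/-- the difference of the extreme projections -/
theorem fam_diff (h : Ed e) {g : Matrix (ι ⊕ ι) (ι ⊕ ι) ℂ} (hg : g ∈ GT ι) :
    GG g * Pe e 2 * GG (gi g) - GG g * Pe e 0 * GG (gi g) = (1 / 2 : ℂ) • tw (TT ι) (dv (g * Dm ι ℂ * gi g) * toC e) := by
  rw [← sub_mul, ← mul_sub, Pe, Pe, GG, GG, ← tw_sub, tw_mul TT_sq, tw_mul TT_sq, ← tw_smul]
  congr 1
  rw [dv_gD hg, dv_D, ← sub_mul]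
  calc (g ⊗ₖ g) * ((R0 ι 2 - R0 ι 0) * toC e) * (gi g ⊗ₖ gi g)
      = (g ⊗ₖ g) * (R0 ι 2 - R0 ι 0) * (toC e * (gi g ⊗ₖ gi g)) := by simp only [mul_assoc]
    _ = (g ⊗ₖ g) * (R0 ι 2 - R0 ι 0) * (gi g ⊗ₖ gi g) * toC e := by
        rw [← h.comg _ (gi_mem hg)]; simp only [mul_assoc]
    _ = _ := by
        rw [mul_smul_comm, smul_mul_assoc, smul_mul_assoc, smul_smul]
        norm_num

/-- **The endomorphisms of a generic member.** -/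
theorem end_big (h : Ed e) (hend : ∀ b, b * toC e = b → toC e * b = b → Cm b → ∃ l : ℂ, b = l • toC e)
    {U : Set (GT ι)} (hU : IsOpen U) (hne : U.Nonempty) {A : Matrix ((ι ⊕ ι) × (ι ⊕ ι)) ((ι ⊕ ι) × (ι ⊕ ι)) ℚ}
    (hA : A * e = A) (hA' : e * A = A)
    (hcom : ∀ g ∈ U, ∀ p, toC A * (GG (g : Matrix (ι ⊕ ι) (ι ⊕ ι) ℂ) * Pe e p * GG (gi (g : Matrix (ι ⊕ ι) (ι ⊕ ι) ℂ))) =
      (GG (g : Matrix (ι ⊕ ι) (ι ⊕ ι) ℂ) * Pe e p * GG (gi (g : Matrix (ι ⊕ ι) (ι ⊕ ι) ℂ))) * toC A) :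
    ∃ l : ℂ, toC A = l • toC e := by
  obtain ⟨⟨g, hg⟩, hgU⟩ := hne
  obtain ⟨X, hX⟩ : ∃ X, X = ut (TT ι) (toC A) := ⟨_, rfl⟩
  have hte : ut (TT ι) (toC e) = toC e := by
    have h1 := tw_of_comm TT_sq h.comT'
    conv_lhs => rw [← h1]
    rw [ut_tw TT_sq]
  have hXe : X * toC e = X := by
    conv_lhs => rw [hX, ← hte]
    rw [ut_mul TT_sq, ← toC_mul', hA, hX]
  have heX : toC e * X = X := by
    conv_lhs => rw [hX, ← hte]
    rw [ut_mul TT_sq, ← toC_mul', hA', hX]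
  have hXZ : ∀ g' : GT ι, g' ∈ U → X * dv ((g' : Matrix (ι ⊕ ι) (ι ⊕ ι) ℂ) * Dm ι ℂ * gi (g' : Matrix (ι ⊕ ι) (ι ⊕ ι) ℂ)) =
      dv ((g' : Matrix (ι ⊕ ι) (ι ⊕ ι) ℂ) * Dm ι ℂ * gi (g' : Matrix (ι ⊕ ι) (ι ⊕ ι) ℂ)) * X := by
    rintro ⟨g', hg'⟩ hgU'
    have h2 := hcom ⟨g', hg'⟩ hgU' 2
    have h0 := hcom ⟨g', hg'⟩ hgU' 0
    simp only at h2 h0 ⊢
    have h1 : toC A * ((1 / 2 : ℂ) • tw (TT ι) (dv (g' * Dm ι ℂ * gi g') * toC e)) =
        ((1 / 2 : ℂ) • tw (TT ι) (dv (g' * Dm ι ℂ * gi g') * toC e)) * toC A := by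
      rw [← fam_diff h hg', mul_sub, sub_mul, h2, h0]
    rw [mul_smul_comm, smul_mul_assoc] at h1
    have h3 : toC A * tw (TT ι) (dv (g' * Dm ι ℂ * gi g') * toC e) =
        tw (TT ι) (dv (g' * Dm ι ℂ * gi g') * toC e) * toC A := smul_right_injective _ (by norm_num) h1
    have h4 : X * (dv (g' * Dm ι ℂ * gi g') * toC e) = (dv (g' * Dm ι ℂ * gi g') * toC e) * X := by
      have h5 := congrArg (ut (TT ι)) h3
      rwa [← ut_mul TT_sq, ← ut_mul TT_sq, ut_tw TT_sq, ← hX] at h5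
    calc X * dv (g' * Dm ι ℂ * gi g') = (X * toC e) * dv (g' * Dm ι ℂ * gi g') := by rw [hXe]
      _ = X * (dv (g' * Dm ι ℂ * gi g') * toC e) := by rw [mul_assoc, ← h.dvZ hg']
      _ = dv (g' * Dm ι ℂ * gi g') * (toC e * X) := by rw [h4, mul_assoc]
      _ = _ := by rw [heX]
  obtain ⟨b, hb⟩ : ∃ b, b = (gi g ⊗ₖ gi g) * X * (g ⊗ₖ g) := ⟨_, rfl⟩
  have k1 : (g ⊗ₖ g) * (gi g ⊗ₖ gi g) = 1 := by
    rw [← Matrix.mul_kronecker_mul, mul_gi hg, Matrix.one_kronecker_one]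
  have k2 : (gi g ⊗ₖ gi g) * (g ⊗ₖ g) = 1 := by
    rw [← Matrix.mul_kronecker_mul, gi_mul hg, Matrix.one_kronecker_one]
  have hbe : b * toC e = b := by
    rw [hb, mul_assoc, h.comg _ hg]
    calc (gi g ⊗ₖ gi g) * X * (toC e * (g ⊗ₖ g)) = (gi g ⊗ₖ gi g) * (X * toC e) * (g ⊗ₖ g) := by simp only [mul_assoc]
      _ = _ := by rw [hXe]
  have heb : toC e * b = b := by
    rw [hb]
    calc toC e * ((gi g ⊗ₖ gi g) * X * (g ⊗ₖ g)) = (toC e * (gi g ⊗ₖ gi g)) * X * (g ⊗ₖ g) := by simp only [mul_assoc]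
      _ = (gi g ⊗ₖ gi g) * (toC e * X) * (g ⊗ₖ g) := by rw [← h.comg _ (gi_mem hg)]; simp only [mul_assoc]
      _ = _ := by rw [heX]
  have hbX : ∀ Z : Matrix (ι ⊕ ι) (ι ⊕ ι) ℂ, X * dv (g * Z * gi g) = dv (g * Z * gi g) * X →
      b * dv Z = dv Z * b := by
    intro Z hZ
    have e1 : dv Z = (gi g ⊗ₖ gi g) * dv (g * Z * gi g) * (g ⊗ₖ g) := by
      rw [dv_conj (gi_mul hg)]
      congr 1
      calc Z = (gi g * g) * Z * (gi g * g) := by rw [gi_mul hg, one_mul, mul_one]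
        _ = _ := by simp only [mul_assoc]
    rw [e1, hb]
    calc (gi g ⊗ₖ gi g) * X * (g ⊗ₖ g) * ((gi g ⊗ₖ gi g) * dv (g * Z * gi g) * (g ⊗ₖ g))
        = (gi g ⊗ₖ gi g) * X * ((g ⊗ₖ g) * (gi g ⊗ₖ gi g)) * dv (g * Z * gi g) * (g ⊗ₖ g) := by simp only [mul_assoc]
      _ = (gi g ⊗ₖ gi g) * (X * dv (g * Z * gi g)) * (g ⊗ₖ g) := by rw [k1, mul_one]; simp only [mul_assoc]
      _ = (gi g ⊗ₖ gi g) * dv (g * Z * gi g) * ((g ⊗ₖ g) * (gi g ⊗ₖ gi g)) * X * (g ⊗ₖ g) := by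
          rw [hZ, k1, mul_one]; simp only [mul_assoc]
      _ = _ := by simp only [mul_assoc]
  have hDY : ∀ a c : ι, a ≠ c → ∀ z : ℂ, z * starRingEnd ℂ z = 1 →
      b * dv (Dm ι ℂ * Yd a c z) = dv (Dm ι ℂ * Yd a c z) * b := by
    intro a c hac z hz
    have hd := dir_Yd hac hz
    have hcont : Continuous fun u : ℝ => (⟨g * bst (Pd a c) (Yd a c z) u, mul_mem_GT hg (hd.bst_mem u)⟩ : GT ι) :=
      Continuous.subtype_mk (continuous_const.matrix_mul bst_cont) _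
    have hV : IsOpen ((fun u : ℝ => (⟨g * bst (Pd a c) (Yd a c z) u, mul_mem_GT hg (hd.bst_mem u)⟩ : GT ι)) ⁻¹' U) :=
      hU.preimage hcont
    have h0V : (0 : ℝ) ∈ ((fun u : ℝ => (⟨g * bst (Pd a c) (Yd a c z) u, mul_mem_GT hg (hd.bst_mem u)⟩ : GT ι)) ⁻¹' U) := by
      rw [Set.mem_preimage]
      have h2 : (⟨g * bst (Pd a c) (Yd a c z) 0, mul_mem_GT hg (hd.bst_mem 0)⟩ : GT ι) = ⟨g, hg⟩ := by
        apply Subtype.ext
        show g * bst (Pd a c) (Yd a c z) 0 = g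
        rw [bst_zero, mul_one]
      rw [h2]
      exact hgU
    obtain ⟨ε, hε, hball⟩ := Metric.isOpen_iff.1 hV 0 h0V
    have key : ∀ u : ℝ, |u| < ε → b * dv (bst (Pd a c) (Yd a c z) u * Dm ι ℂ * bst (Pd a c) (Yd a c z) (-u)) =
        dv (bst (Pd a c) (Yd a c z) u * Dm ι ℂ * bst (Pd a c) (Yd a c z) (-u)) * b := by
      intro u hu
      apply hbX
      have h2 := hXZ _ (hball (by rwa [Metric.mem_ball, Real.dist_eq, sub_zero]))
      simp only at h2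
      rw [gi_mul', hd.gi_bst] at h2
      have e1 : g * (bst (Pd a c) (Yd a c z) u * Dm ι ℂ * bst (Pd a c) (Yd a c z) (-u)) * gi g =
          g * bst (Pd a c) (Yd a c z) u * Dm ι ℂ * (bst (Pd a c) (Yd a c z) (-u) * gi g) := by simp only [mul_assoc]
      rw [e1]
      exact h2
    have hu : 0 < ε / 2 := by linarith
    have k3 := key (ε / 2) (by rw [abs_of_pos hu]; linarith)
    have k4 := key (-(ε / 2)) (by rw [abs_neg, abs_of_pos hu]; linarith)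
    rw [neg_neg] at k4
    have k5 := hd.odd (ε / 2)
    have k6 : b * dv ((-4 * (Real.sqrt (1 + (ε / 2) ^ 2) : ℂ) * ((ε / 2 : ℝ) : ℂ)) • (Dm ι ℂ * Yd a c z)) =
        dv ((-4 * (Real.sqrt (1 + (ε / 2) ^ 2) : ℂ) * ((ε / 2 : ℝ) : ℂ)) • (Dm ι ℂ * Yd a c z)) * b := by
      rw [← k5, dv_sub, mul_sub, sub_mul, k3, k4]
    rw [dv_smul, mul_smul_comm, smul_mul_assoc] at k6
    refine smul_right_injective _ ?_ k6
    have h7 : Real.sqrt (1 + (ε / 2) ^ 2) ≠ 0 := (Real.sqrt_pos.2 (by positivity)).ne'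
    refine mul_ne_zero (mul_ne_zero (by norm_num) ?_) ?_
    · exact_mod_cast h7
    · exact_mod_cast hu.ne'
  have hcm : Cm b := by
    have hEF : ∀ a c : ι, a ≠ c → b * dv (Eb a c) = dv (Eb a c) * b ∧ b * dv (Fb a c) = dv (Fb a c) * b := by
      intro a c hac
      have h1 := hDY a c hac 1 (by simp)
      have h2 := hDY a c hac Complex.I (by simp)
      rw [DYd, map_one, one_smul, one_smul, dv_add, mul_add, add_mul] at h1
      rw [DYd, Complex.conj_I, neg_smul, ← sub_eq_add_neg, ← smul_sub, dv_smul, mul_smul_comm, smul_mul_assoc] at h2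
      have h3 := smul_right_injective _ Complex.I_ne_zero h2
      simp only [dv_sub, mul_sub, sub_mul] at h3
      constructor
      · have h4 : (2 : ℂ) • (b * dv (Eb a c)) = (2 : ℂ) • (dv (Eb a c) * b) := by
          rw [two_smul, two_smul]
          calc b * dv (Eb a c) + b * dv (Eb a c) = (b * dv (Eb a c) + b * dv (Fb a c)) +
                (b * dv (Eb a c) - b * dv (Fb a c)) := by abel
            _ = _ := by rw [h1, h3]; abel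
        exact smul_right_injective _ two_ne_zero h4
      · have h4 : (2 : ℂ) • (b * dv (Fb a c)) = (2 : ℂ) • (dv (Fb a c) * b) := by
          rw [two_smul, two_smul]
          calc b * dv (Fb a c) + b * dv (Fb a c) = (b * dv (Eb a c) + b * dv (Fb a c)) -
                (b * dv (Eb a c) - b * dv (Fb a c)) := by abel
            _ = _ := by rw [h1, h3]; abel
        exact smul_right_injective _ two_ne_zero h4
    exact ⟨fun a c hac => (hEF a c hac).1, fun a c hac => (hEF a c hac).2⟩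
  obtain ⟨l, hl⟩ := hend b hbe heb hcm
  refine ⟨l, ?_⟩
  have e1 : X = (g ⊗ₖ g) * b * (gi g ⊗ₖ gi g) := by
    rw [hb]
    calc X = ((g ⊗ₖ g) * (gi g ⊗ₖ gi g)) * X * ((g ⊗ₖ g) * (gi g ⊗ₖ gi g)) := by rw [k1, one_mul, mul_one]
      _ = _ := by simp only [mul_assoc]
  have e2 : X = l • toC e := by
    rw [e1, hl, mul_smul_comm, smul_mul_assoc, h.comg _ hg, mul_assoc, k1, mul_one]
  have e3 : toC A = tw (TT ι) X := by rw [hX, tw_ut TT_sq]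
  rw [e3, e2, tw_smul, tw_of_comm TT_sq h.comT']

end MH.QS94
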