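import Pool.Agent.Helper94.QS.End
import Pool.Agent.Helper94.SH.Fact
import Pool.Agent.Helper94.SH.NotFull
import Pool.Agent.Helper55.UG.TateGQ

/-!
Quaternionic skew-Hermitian forms (MP_b8862a_ag): the statement for an idempotent.
-/

set_option linter.unusedSectionVars false

open Matrix Kronecker

namespace MH.QS94

open MH.Her27

section ptr

variable {κ : Type*} [Fintype κ] [DecidableEq κ]

theorem QI.ptr2 {X : Matrix (κ × κ) (κ × κ) ℂ} (h : QI X) : QI (ptr2 X) := by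
  obtain ⟨A, B, rfl⟩ := h
  refine ⟨MH.Her27.ptr2 A, MH.Her27.ptr2 B, ?_⟩
  rw [map_add, map_smul]
  congr 1
  · ext i j
    simp [ptr2_apply, toC]
  · congr 1
    ext i j
    simp [ptr2_apply, toC]

theorem QI.dv {X : Matrix κ κ ℂ} (h : QI X) : QI (dv X) := by
  obtain ⟨A, B, rfl⟩ := h
  refine ⟨A ⊗ₖ 1 + 1 ⊗ₖ A, B ⊗ₖ 1 + 1 ⊗ₖ B, ?_⟩
  rw [toC_add', toC_add', toC_kron, toC_kron, toC_kron, toC_kron, toC_one', dv_add, dv_smul]
  rfl

theorem ptr2_conj (X : Matrix (κ × κ) (κ × κ) ℂ) :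
    MH.Her27.ptr2 (X.map (starRingEnd ℂ)) = (MH.Her27.ptr2 X).map (starRingEnd ℂ) := by
  ext i j
  simp [ptr2_apply]

theorem ptr2_mul_tau (X : Matrix (κ × κ) (κ × κ) ℂ) (i j : κ) :
    MH.Her27.ptr2 (X * MH.Her27.tau κ ℂ) i j = ∑ k, X (i, k) (k, j) := by
  rw [ptr2_apply]
  refine Finset.sum_congr rfl fun k _ => ?_
  rw [mul_tau_apply]

theorem ptr2_dv (Z : Matrix κ κ ℂ) (hZ : Z.trace = 0) : MH.Her27.ptr2 (dv Z) = (Fintype.card κ : ℂ) • Z := by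
  rw [dv, map_add, ptr2_kron, ptr2_kron, hZ, zero_smul, add_zero, Matrix.trace_one]

theorem ptr2_dv_tau (Z : Matrix κ κ ℂ) : MH.Her27.ptr2 (dv Z * MH.Her27.tau κ ℂ) = (2 : ℂ) • Z := by
  ext i j
  rw [ptr2_mul_tau, Matrix.smul_apply, smul_eq_mul, two_mul]
  simp only [dv, Matrix.add_apply, kroneckerMap_apply, Matrix.one_apply, Finset.sum_add_distrib]
  simp

end ptr

variable {ι : Type} [Fintype ι] [DecidableEq ι]
variable {e : Matrix ((ι ⊕ ι) × (ι ⊕ ι)) ((ι ⊕ ι) × (ι ⊕ ι)) ℚ}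

theorem ptr2_T (X : Matrix ((ι ⊕ ι) × (ι ⊕ ι)) ((ι ⊕ ι) × (ι ⊕ ι)) ℂ) :
    ptr2 (toC (TT ι) * X * toC (TT ι)) = -(Jm ι ℂ * ptr2 X * Jm ι ℂ) := by
  have e1 : toC (TT ι) = (Jm ι ℂ ⊗ₖ (1 : Matrix (ι ⊕ ι) (ι ⊕ ι) ℂ)) * ((1 : Matrix (ι ⊕ ι) (ι ⊕ ι) ℂ) ⊗ₖ Jm ι ℂ) := by
    rw [← Matrix.mul_kronecker_mul, mul_one, one_mul, toC_TT]
  have e2 : toC (TT ι) = ((1 : Matrix (ι ⊕ ι) (ι ⊕ ι) ℂ) ⊗ₖ Jm ι ℂ) * (Jm ι ℂ ⊗ₖ (1 : Matrix (ι ⊕ ι) (ι ⊕ ι) ℂ)) := by
    rw [← Matrix.mul_kronecker_mul, mul_one, one_mul, toC_TT]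
  have e3 : toC (TT ι) * X * toC (TT ι) = (1 ⊗ₖ Jm ι ℂ) *
      (((Jm ι ℂ ⊗ₖ (1 : Matrix (ι ⊕ ι) (ι ⊕ ι) ℂ)) * X * (1 ⊗ₖ Jm ι ℂ)) * (Jm ι ℂ ⊗ₖ 1)) := by
    rw [e2]
    simp only [mul_assoc]
  rw [e3, ptr2_comm]
  have e4 : (Jm ι ℂ ⊗ₖ (1 : Matrix (ι ⊕ ι) (ι ⊕ ι) ℂ)) * X * (1 ⊗ₖ Jm ι ℂ) * (Jm ι ℂ ⊗ₖ 1) * (1 ⊗ₖ Jm ι ℂ) =
      -(((Jm ι ℂ ⊗ₖ (1 : Matrix (ι ⊕ ι) (ι ⊕ ι) ℂ)) * X) * (Jm ι ℂ ⊗ₖ 1)) := by
    have e5 : ((1 : Matrix (ι ⊕ ι) (ι ⊕ ι) ℂ) ⊗ₖ Jm ι ℂ) * (Jm ι ℂ ⊗ₖ 1) * ((1 : Matrix (ι ⊕ ι) (ι ⊕ ι) ℂ) ⊗ₖ Jm ι ℂ) =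
        -(Jm ι ℂ ⊗ₖ (1 : Matrix (ι ⊕ ι) (ι ⊕ ι) ℂ)) := by
      rw [← Matrix.mul_kronecker_mul, ← Matrix.mul_kronecker_mul, one_mul, mul_one, Jm_sq]
      ext i j
      simp [kroneckerMap_apply]
    calc _ = (Jm ι ℂ ⊗ₖ (1 : Matrix (ι ⊕ ι) (ι ⊕ ι) ℂ)) * X *
          (((1 : Matrix (ι ⊕ ι) (ι ⊕ ι) ℂ) ⊗ₖ Jm ι ℂ) * (Jm ι ℂ ⊗ₖ 1) * ((1 : Matrix (ι ⊕ ι) (ι ⊕ ι) ℂ) ⊗ₖ Jm ι ℂ)) := by
            simp only [mul_assoc]
      _ = _ := by rw [e5, mul_neg]
  rw [e4, map_neg, ptr2_right, ptr2_left]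

/-- the trace of the conjugated cocharacter -/
theorem trace_Z {g : Matrix (ι ⊕ ι) (ι ⊕ ι) ℂ} (hg : g ∈ GT ι) : (g * Dm ι ℂ * gi g).trace = 0 := by
  rw [Matrix.trace_mul_comm, ← mul_assoc, gi_mul hg, one_mul, ← Pp_sub, Matrix.trace_sub, Pp_trace, Pm_trace, sub_self]

theorem Z_skew {g : Matrix (ι ⊕ ι) (ι ⊕ ι) ℂ} (hg : g ∈ GT ι) :
    (g * Dm ι ℂ * gi g) * Sm ι ℂ + Sm ι ℂ * (g * Dm ι ℂ * gi g)ᵀ = 0 := by
  have e1 : (g * Dm ι ℂ * gi g)ᵀ = Sm ι ℂ * g * Sm ι ℂ * Dm ι ℂ * gᵀ := by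
    rw [gi, Matrix.transpose_mul, Matrix.transpose_mul, Matrix.transpose_mul, Matrix.transpose_mul, Sm_t,
      Matrix.transpose_transpose, Dm_t]
    simp only [mul_assoc]
  have e2 : Sm ι ℂ * Dm ι ℂ = -(Dm ι ℂ * Sm ι ℂ) := by
    rw [← Pp_sub, mul_sub, sub_mul, Sm_Pp, Sm_Pm]
    abel
  rw [e1, gi]
  calc g * Dm ι ℂ * (Sm ι ℂ * gᵀ * Sm ι ℂ) * Sm ι ℂ + Sm ι ℂ * (Sm ι ℂ * g * Sm ι ℂ * Dm ι ℂ * gᵀ)
      = g * Dm ι ℂ * Sm ι ℂ * gᵀ * (Sm ι ℂ * Sm ι ℂ) + (Sm ι ℂ * Sm ι ℂ) * g * (Sm ι ℂ * Dm ι ℂ) * gᵀ := by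
        simp only [mul_assoc]
    _ = 0 := by
        rw [Sm_sq, e2, mul_one, one_mul]
        simp only [mul_neg, neg_mul, mul_assoc]
        exact add_neg_cancel _

open Module in
/-- **The statement for an idempotent.** -/
theorem final_of (h : Ed e) (hend : ∀ b, b * toC e = b → toC e * b = b → Cm b → ∃ l : ℂ, b = l • toC e)
    {s k : ℕ} {c : ℂ} (hc : c ≠ 0)
    (hval : ∀ g ∈ GT ι, ptr2 (dv (g * Dm ι ℂ * gi g) * toC e) = c • (g * Dm ι ℂ * gi g))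
    (ht2 : (R0 ι 2 * toC e).trace = s) (ht1 : (R0 ι 1 * toC e).trace = k) (hlt : (2 * Fintype.card ι) ^ 2 < 2 * s * k) :
    ∃ (n : Type) (_ : Fintype n) (_ : DecidableEq n) (Q : Matrix n n ℚ) (P : ℤ → Matrix n n ℂ), IsHW 2 Q {0, 1, 2} P ∧
      (∀ A : Matrix n n ℚ, (∀ p, toC A * P p = P p * toC A) → ∃ c : ℚ, A = c • (1 : Matrix n n ℚ)) ∧
      (P 2).rank = s ∧ (P 1).rank = k ∧ ∃ g : GL n ℂ, IsGQ 2 Q g ∧ g ∉ MT {0, 1, 2} P := by
  classical
  obtain ⟨B, C, hBC, hCB⟩ := SH94.exists_fact h.idem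
  have b1 : rcC B * rcC C = 1 := by
    rw [← rcC_mul, hBC]
    unfold rcC
    rw [Matrix.map_one _ (map_zero _) (map_one _)]
  have b2 : rcC C * rcC B = toC e := by
    rw [← rcC_mul, hCB]
    rfl
  have b3 : B * e = B := by
    have h1 : B * (C * B) = B * e := congrArg (B * ·) hCB
    rw [← h1, ← Matrix.mul_assoc, hBC, Matrix.one_mul]
  have b4 : e * C = C := by
    have h1 : (C * B) * C = e * C := congrArg (· * C) hCB
    rw [← h1, Matrix.mul_assoc, hBC, Matrix.mul_one]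
  have b5 : rcC B * toC e = rcC B := by
    change rcC B * rcC e = rcC B
    rw [← rcC_mul, b3]
  have b6 : toC e * rcC C = rcC C := by
    change rcC e * rcC C = rcC C
    rw [← rcC_mul, b4]
  have hcont : Continuous fun g : GT ι => GG (g : Matrix (ι ⊕ ι) (ι ⊕ ι) ℂ) := by
    have h0 : ∀ i j, Continuous fun g : GT ι => (g : Matrix (ι ⊕ ι) (ι ⊕ ι) ℂ) i j := fun i j =>
      (continuous_apply j).comp ((continuous_apply i).comp continuous_subtype_val)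
    have h1 : Continuous fun g : GT ι => (g : Matrix (ι ⊕ ι) (ι ⊕ ι) ℂ) ⊗ₖ (g : Matrix (ι ⊕ ι) (ι ⊕ ι) ℂ) := by
      refine continuous_matrix fun a b => ?_
      simp only [kroneckerMap_apply]
      exact (h0 _ _).mul (h0 _ _)
    exact (continuous_const.matrix_mul h1).matrix_mul continuous_const
  have hcont' : Continuous fun g : GT ι => GG (gi (g : Matrix (ι ⊕ ι) (ι ⊕ ι) ℂ)) := by
    have h00 : Continuous fun g : GT ι => gi (g : Matrix (ι ⊕ ι) (ι ⊕ ι) ℂ) := gi_cont.comp continuous_subtype_val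
    have h0 : ∀ i j, Continuous fun g : GT ι => gi (g : Matrix (ι ⊕ ι) (ι ⊕ ι) ℂ) i j := fun i j =>
      (continuous_apply j).comp ((continuous_apply i).comp h00)
    have h1 : Continuous fun g : GT ι => gi (g : Matrix (ι ⊕ ι) (ι ⊕ ι) ℂ) ⊗ₖ gi (g : Matrix (ι ⊕ ι) (ι ⊕ ι) ℂ) := by
      refine continuous_matrix fun a b => ?_
      simp only [kroneckerMap_apply]
      exact (h0 _ _).mul (h0 _ _)
    exact (continuous_const.matrix_mul h1).matrix_mul continuous_const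
  obtain ⟨⟨g, hg⟩, hz⟩ := exists_generic27 (T := GT ι)
    (fun t p => rcC B * (GG (t : Matrix (ι ⊕ ι) (ι ⊕ ι) ℂ) * Pe e p * GG (gi (t : Matrix (ι ⊕ ι) (ι ⊕ ι) ℂ))) * rcC C)
    (fun p => ((continuous_const.matrix_mul ((hcont.matrix_mul continuous_const).matrix_mul hcont')).matrix_mul
      continuous_const)) (by
    intro U hU hne A hA
    obtain ⟨l, hl⟩ := end_big h hend hU hne (A := C * A * B) (by
      rw [Matrix.mul_assoc, b3]) (by
      rw [Matrix.mul_assoc, ← Matrix.mul_assoc e, b4]) (by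
      rintro ⟨t, ht⟩ htU p
      have H := fam_big h ht
      have h1 := hA ⟨t, ht⟩ htU p
      simp only at h1 ⊢
      have e1 : toC (C * A * B) = rcC C * toC A * rcC B := by
        change rcC (C * A * B) = _
        rw [rcC_mul, rcC_mul]
        rfl
      have h2 : GG t * Pe e p * GG (gi t) = rcC C * (rcC B * (GG t * Pe e p * GG (gi t)) * rcC C) * rcC B := by
        calc GG t * Pe e p * GG (gi t) = toC e * (GG t * Pe e p * GG (gi t)) * toC e := by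
              rw [H.e_mul p, H.mul_e p]
          _ = _ := by rw [← b2]; simp only [Matrix.mul_assoc]
      obtain ⟨Ps, hPs⟩ : ∃ Ps, rcC B * (GG t * Pe e p * GG (gi t)) * rcC C = Ps := ⟨_, rfl⟩
      rw [hPs] at h1 h2
      rw [h2, e1]
      calc rcC C * toC A * rcC B * (rcC C * Ps * rcC B) = rcC C * (toC A * (rcC B * rcC C) * Ps) * rcC B := by
            simp only [Matrix.mul_assoc]
        _ = rcC C * (Ps * (rcC B * rcC C) * toC A) * rcC B := by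
            rw [b1, Matrix.mul_one, Matrix.mul_one, h1]
        _ = _ := by simp only [Matrix.mul_assoc])
    have hAl : toC A = l • (1 : Matrix (Fin e.rank) (Fin e.rank) ℂ) := by
      have e1 : toC (C * A * B) = rcC C * toC A * rcC B := by
        change rcC (C * A * B) = _
        rw [rcC_mul, rcC_mul]
        rfl
      calc toC A = (rcC B * rcC C) * toC A * (rcC B * rcC C) := by rw [b1, Matrix.one_mul, Matrix.mul_one]
        _ = rcC B * toC (C * A * B) * rcC C := by rw [e1]; simp only [Matrix.mul_assoc]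
        _ = _ := by rw [hl, Matrix.mul_smul, Matrix.smul_mul, b5, b1]
    rcases isEmpty_or_nonempty (Fin e.rank) with hemp | ⟨⟨i⟩⟩
    · exact ⟨0, Matrix.ext fun i => (hemp.false i).elim⟩
    · have hli : l = algebraMap ℚ ℂ (A i i) := by
        have h1 := congrFun (congrFun hAl i) i
        rw [Matrix.smul_apply, Matrix.one_apply_eq, smul_eq_mul, mul_one] at h1
        exact h1.symm
      refine ⟨A i i, toC_inj27 ?_⟩
      rw [hAl, hli, toC_smul27, toC_one'])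
  have HB := fam_big h hg
  have H := HB.small hBC hCB
  have idm : ∀ p, (rcC B * (GG g * Pe e p * GG (gi g)) * rcC C) * (rcC B * (GG g * Pe e p * GG (gi g)) * rcC C) =
      rcC B * (GG g * Pe e p * GG (gi g)) * rcC C := by
    intro p
    have := H.mul p p
    rwa [if_pos rfl] at this
  have tr : ∀ p, (rcC B * (GG g * Pe e p * GG (gi g)) * rcC C).trace = (R0 ι p * toC e).trace := by
    intro p
    rw [Matrix.trace_mul_comm, ← Matrix.mul_assoc, b2, HB.e_mul p, Matrix.trace_mul_comm, ← Matrix.mul_assoc,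
      gi_GG hg, Matrix.one_mul, Pe, tw_trace TT_sq]
  have r2 : (rcC B * (GG g * Pe e 2 * GG (gi g)) * rcC C).rank = s := by
    have h1 := trace_eq_rank (idm 2)
    rw [tr, ht2] at h1
    exact_mod_cast h1.symm
  have r1 : (rcC B * (GG g * Pe e 1 * GG (gi g)) * rcC C).rank = k := by
    have h1 := trace_eq_rank (idm 1)
    rw [tr, ht1] at h1
    exact_mod_cast h1.symm
  refine ⟨Fin e.rank, inferInstance, inferInstance, Cᵀ * Qd ι * C, _, H, hz, r2, r1, ?_⟩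
  -- the operator
  obtain ⟨Z, hZ⟩ : ∃ Z, Z = g * Dm ι ℂ * gi g := ⟨_, rfl⟩
  obtain ⟨G, hG⟩ : ∃ G, G = tw (TT ι) (dv Z) := ⟨_, rfl⟩
  have hte : tw (TT ι) (toC e) = toC e := tw_of_comm TT_sq h.comT'
  have hute : ut (TT ι) (toC e) = toC e := by
    conv_lhs => rw [← hte]
    rw [ut_tw TT_sq]
  have hGe : G * toC e = toC e * G := by
    rw [hG, ← hte, tw_mul TT_sq, tw_mul TT_sq, hZ, h.dvZ hg]
  have hdiff : GG g * Pe e 2 * GG (gi g) - GG g * Pe e 0 * GG (gi g) = (1 / 2 : ℂ) • (G * toC e) := by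
    rw [fam_diff h hg, ← hZ, hG]
    conv_rhs => rw [← hte]
    rw [tw_mul TT_sq]
  have hh : rcC B * (GG g * Pe e 2 * GG (gi g)) * rcC C - rcC B * (GG g * Pe e 0 * GG (gi g)) * rcC C =
      (1 / 2 : ℂ) • (rcC B * G * rcC C) := by
    rw [← Matrix.sub_mul, ← Matrix.mul_sub, hdiff, Matrix.mul_smul, Matrix.smul_mul, Matrix.mul_assoc, Matrix.mul_assoc G,
      b6, ← Matrix.mul_assoc]
  -- the linear map
  obtain ⟨K, hKdef⟩ : ∃ K : Matrix ((ι ⊕ ι) × (ι ⊕ ι)) ((ι ⊕ ι) × (ι ⊕ ι)) ℂ →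
      Matrix ((ι ⊕ ι) × (ι ⊕ ι)) ((ι ⊕ ι) × (ι ⊕ ι)) ℂ, ∀ X, K X = tw (TT ι) (dv (ptr2 (ut (TT ι) X))) := ⟨_, fun _ => rfl⟩
  have ut_add : ∀ X Y, ut (TT ι) (X + Y) = ut (TT ι) X + ut (TT ι) Y := fun X Y => by simp only [ut, mul_add, add_mul]
  have ut_smul : ∀ (c : ℂ) X, ut (TT ι) (c • X) = c • ut (TT ι) X := fun c X => by
    simp only [ut, mul_smul_comm, smul_mul_assoc]
  let F : Matrix (Fin e.rank) (Fin e.rank) ℂ →ₗ[ℂ] Matrix (Fin e.rank) (Fin e.rank) ℂ :=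
    { toFun := fun X => rcC B * K (rcC C * X * rcC B) * rcC C
      map_add' := fun X Y => by
        rw [Matrix.mul_add, Matrix.add_mul, hKdef, hKdef, hKdef, ut_add, map_add, dv_add, tw_add, Matrix.mul_add,
          Matrix.add_mul]
      map_smul' := fun c X => by
        rw [Matrix.mul_smul, Matrix.smul_mul, hKdef, hKdef, ut_smul, map_smul, dv_smul, tw_smul, Matrix.mul_smul,
          Matrix.smul_mul, RingHom.id_apply] }
  have hFdef : ∀ X, F X = rcC B * K (rcC C * X * rcC B) * rcC C := fun X => rfl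
  let L2 : Matrix (ι ⊕ ι) (ι ⊕ ι) ℂ →ₗ[ℂ] Matrix (Fin e.rank) (Fin e.rank) ℂ :=
    { toFun := fun p => rcC B * tw (TT ι) (dv p) * rcC C
      map_add' := fun p q => by
        rw [dv_add, tw_add, Matrix.mul_add, Matrix.add_mul]
      map_smul' := fun c p => by
        rw [dv_smul, tw_smul, Matrix.mul_smul, Matrix.smul_mul, RingHom.id_apply] }
  have hL2 : ∀ p, L2 p = rcC B * tw (TT ι) (dv p) * rcC C := fun p => rfl
  have hle : LinearMap.range F ≤ LinearMap.range L2 := by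
    rintro _ ⟨X, rfl⟩
    exact ⟨ptr2 (ut (TT ι) (rcC C * X * rcC B)), by rw [hL2, hFdef, hKdef]⟩
  have hfr : finrank ℂ (LinearMap.range F) < 2 * s * k := by
    have h1 := Submodule.finrank_mono hle
    have h2 := LinearMap.finrank_range_le L2
    have h3 : finrank ℂ (Matrix (ι ⊕ ι) (ι ⊕ ι) ℂ) = (2 * Fintype.card ι) ^ 2 := by
      rw [finrank_matrix, Fintype.card_sum, finrank_self]
      ring
    rw [h3] at h2
    exact lt_of_le_of_lt (h1.trans h2) hlt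
  have hGst : ∀ X : Matrix ((ι ⊕ ι) × (ι ⊕ ι)) ((ι ⊕ ι) × (ι ⊕ ι)) ℂ, K (G * X - X * G) = G * K X - K X * G := by
    intro X
    have e1 : ut (TT ι) (G * X - X * G) = dv Z * ut (TT ι) X - ut (TT ι) X * dv Z := by
      have e2 : ut (TT ι) (G * X - X * G) = ut (TT ι) (G * X) - ut (TT ι) (X * G) := by
        simp only [ut, mul_sub, sub_mul]
      rw [e2, ← ut_mul TT_sq, ← ut_mul TT_sq, hG, ut_tw TT_sq]
    rw [hKdef, hKdef, e1]
    have e3 : ptr2 (dv Z * ut (TT ι) X - ut (TT ι) X * dv Z) = Z * ptr2 (ut (TT ι) X) - ptr2 (ut (TT ι) X) * Z :=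
      ptr2_br Z Z _
    rw [e3, dv_br, tw_sub, ← tw_mul TT_sq, ← tw_mul TT_sq, hG]
  obtain ⟨g', hg1, hg2, hg3⟩ := SH94.exists_not_mem H F (fun A => by
    have e1 : rcC C * toC A * rcC B = toC (C * A * B) := by
      change _ = rcC (C * A * B)
      rw [rcC_mul, rcC_mul]
      rfl
    have hq : QI (K (toC (C * A * B))) := by
      rw [hKdef]
      exact (((QI.of_rat (C * A * B)).ut).ptr2.dv).tw
    have hr : (K (toC (C * A * B))).map (starRingEnd ℂ) = K (toC (C * A * B)) := by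
      have h1 := ut_real (T := TT ι) TT_sq (toC_conj' (C * A * B))
      obtain ⟨X, hX⟩ : ∃ X, X = ut (TT ι) (toC (C * A * B)) := ⟨_, rfl⟩
      rw [← hX] at h1
      rw [hKdef, ← hX]
      apply Tr.tw_conj TT_sq
      have h2 : ptr2 X = -(Jm ι ℂ * (ptr2 X).map (starRingEnd ℂ) * Jm ι ℂ) := by
        conv_lhs => rw [← h1]
        rw [ptr2_T, ptr2_conj]
      have h3 : (dv (ptr2 X)).map (starRingEnd ℂ) = dv ((ptr2 X).map (starRingEnd ℂ)) := by
        rw [dv, Matrix.map_add _ (map_add _), kron_map_conj, kron_map_conj, one_map']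
        rfl
      rw [Tr, h3, dv, mul_add, add_mul, J_conj_kron, J_conj_kron, mul_one, Jm_sq]
      conv_rhs => rw [h2]
      ext i j
      simp only [dv, Matrix.add_apply, kroneckerMap_apply, Matrix.neg_apply, Matrix.one_apply]
      ring
    obtain ⟨M, hM⟩ := hq.rat hr
    refine ⟨B * M * C, ?_⟩
    rw [hFdef, e1, hM]
    change _ = rcC (B * M * C)
    rw [rcC_mul, rcC_mul]
    rfl) (fun X => by
    simp only [hFdef]
    rw [hh]
    have e1 : rcC C * ((1 / 2 : ℂ) • (rcC B * G * rcC C) * X - X * ((1 / 2 : ℂ) • (rcC B * G * rcC C))) * rcC B =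
        (1 / 2 : ℂ) • (G * (rcC C * X * rcC B) - (rcC C * X * rcC B) * G) := by
      rw [Matrix.smul_mul, Matrix.mul_smul, ← smul_sub, Matrix.mul_smul, Matrix.smul_mul, Matrix.mul_sub, Matrix.sub_mul]
      congr 2
      · calc rcC C * (rcC B * G * rcC C * X) * rcC B = ((rcC C * rcC B) * G) * (rcC C * X * rcC B) := by
              simp only [Matrix.mul_assoc]
          _ = G * ((toC e * rcC C) * X * rcC B) := by rw [b2, ← hGe]; simp only [Matrix.mul_assoc]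
          _ = _ := by rw [b6]
      · calc rcC C * (X * (rcC B * G * rcC C)) * rcC B = (rcC C * X * rcC B) * (G * (rcC C * rcC B)) := by
              simp only [Matrix.mul_assoc]
          _ = (rcC C * X * (rcC B * toC e)) * G := by rw [b2, hGe]; simp only [Matrix.mul_assoc]
          _ = _ := by rw [b5]
    rw [e1]
    have e2 : ∀ (c : ℂ) Y, K (c • Y) = c • K Y := by
      intro c Y
      rw [hKdef, hKdef, ut_smul, map_smul, dv_smul, tw_smul]
    rw [e2, hGst, Matrix.mul_smul, Matrix.smul_mul, Matrix.smul_mul, Matrix.mul_smul, ← smul_sub, Matrix.mul_sub,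
      Matrix.sub_mul]
    congr 2
    · calc rcC B * (G * K (rcC C * X * rcC B)) * rcC C =
            (rcC B * toC e) * (G * K (rcC C * X * rcC B)) * rcC C := by rw [b5]
        _ = rcC B * (toC e * G) * K (rcC C * X * rcC B) * rcC C := by simp only [Matrix.mul_assoc]
        _ = rcC B * (G * (rcC C * rcC B)) * K (rcC C * X * rcC B) * rcC C := by rw [← hGe, b2]
        _ = _ := by simp only [Matrix.mul_assoc]
    · calc rcC B * (K (rcC C * X * rcC B) * G) * rcC C =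
            rcC B * (K (rcC C * X * rcC B) * G) * (toC e * rcC C) := by rw [b6]
        _ = rcC B * K (rcC C * X * rcC B) * (G * toC e) * rcC C := by simp only [Matrix.mul_assoc]
        _ = rcC B * K (rcC C * X * rcC B) * ((rcC C * rcC B) * G) * rcC C := by rw [hGe, b2]
        _ = _ := by simp only [Matrix.mul_assoc]) hc (by
    simp only [hFdef]
    rw [hh]
    have e1 : rcC C * ((1 / 2 : ℂ) • (rcC B * G * rcC C)) * rcC B = (1 / 2 : ℂ) • (G * toC e) := by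
      rw [Matrix.mul_smul, Matrix.smul_mul]
      congr 1
      calc rcC C * (rcC B * G * rcC C) * rcC B = (rcC C * rcC B) * G * (rcC C * rcC B) := by
            simp only [Matrix.mul_assoc]
        _ = G * (toC e * toC e) := by rw [b2, ← hGe, Matrix.mul_assoc]
        _ = _ := by rw [h.ee]
    rw [e1, hKdef, ut_smul, ← ut_mul TT_sq, hute, hG, ut_tw TT_sq, map_smul, hZ, hval g hg, ← hZ, smul_smul, dv_smul,
      tw_smul, ← hG, Matrix.mul_smul, Matrix.smul_mul, smul_smul, mul_comm]) (by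
    rw [r2, r1]
    exact hfr)
  refine ⟨g', ⟨1, fun h => absurd h (by norm_num), ?_, fun _ => ?_⟩, hg3⟩
  · rw [one_pow, one_smul]
    exact hg1
  · rw [one_pow]
    exact hg2

end MH.QS94
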