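import Pool.Agent.Helper94.QS.Base

/-!
Quaternionic skew-Hermitian forms (MP_b8862a_ag): the structures on the image of an idempotent.
-/

set_option linter.unusedSectionVars false

open Matrix Kronecker

namespace MH.QS94

open MH.Her27

variable {ι : Type*} [Fintype ι] [DecidableEq ι]

/-- the rational involution -/
def TT (ι : Type*) [Fintype ι] [DecidableEq ι] : Matrix ((ι ⊕ ι) × (ι ⊕ ι)) ((ι ⊕ ι) × (ι ⊕ ι)) ℚ := Jm ι ℚ ⊗ₖ Jm ι ℚ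

theorem TT_sq : TT ι * TT ι = 1 := by
  rw [TT, ← Matrix.mul_kronecker_mul, Jm_sq]
  have h1 : ((-1 : Matrix (ι ⊕ ι) (ι ⊕ ι) ℚ) ⊗ₖ (-1 : Matrix (ι ⊕ ι) (ι ⊕ ι) ℚ)) = 1 ⊗ₖ 1 := by
    ext i j
    simp only [kroneckerMap_apply, Matrix.neg_apply]
    ring
  rw [h1, Matrix.one_kronecker_one]

theorem TT_t : (TT ι)ᵀ = TT ι := by
  rw [TT, ← Matrix.kroneckerMap_transpose, Jm_t]
  ext i j
  simp only [kroneckerMap_apply, Matrix.neg_apply]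
  ring

theorem toC_kron {m : Type*} [Fintype m] [DecidableEq m] (A B : Matrix m m ℚ) : toC (A ⊗ₖ B) = toC A ⊗ₖ toC B := by
  ext i j
  simp [toC, kroneckerMap_apply]

theorem toC_TT : toC (TT ι) = Jm ι ℂ ⊗ₖ Jm ι ℂ := by
  rw [TT, toC_kron]
  have h1 : toC (Jm ι ℚ) = Jm ι ℂ := Jm_map _
  rw [h1]

/-- the polarisation -/
def Qd (ι : Type*) [Fintype ι] [DecidableEq ι] : Matrix ((ι ⊕ ι) × (ι ⊕ ι)) ((ι ⊕ ι) × (ι ⊕ ι)) ℚ :=
  -(Dm ι ℚ ⊗ₖ Dm ι ℚ)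

theorem toC_Qd : toC (Qd ι) = -(Dm ι ℂ ⊗ₖ Dm ι ℂ) := by
  have h1 : toC (Dm ι ℚ) = Dm ι ℂ := Dm_map _
  rw [Qd, toC_neg', toC_kron, h1]

theorem Qd_t : (Qd ι)ᵀ = Qd ι := by
  rw [Qd, Matrix.transpose_neg, ← Matrix.kroneckerMap_transpose, Dm_t]

/-- the form in the untwisted coordinates -/
theorem Qd_eq : toC (Qd ι) = -(Lt (TT ι) * (Sm ι ℂ ⊗ₖ Sm ι ℂ) * Lt (TT ι)) := by
  have h1 : (Sm ι ℂ ⊗ₖ Sm ι ℂ) * toC (TT ι) = toC (TT ι) * (Sm ι ℂ ⊗ₖ Sm ι ℂ) := by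
    rw [toC_TT, ← Matrix.mul_kronecker_mul, ← Matrix.mul_kronecker_mul, Sm_Jm, Jm_Sm]
    ext i j
    simp only [kroneckerMap_apply, Matrix.neg_apply]
    ring
  have h2 : Lt (TT ι) * (Sm ι ℂ ⊗ₖ Sm ι ℂ) = (Sm ι ℂ ⊗ₖ Sm ι ℂ) * Lt (TT ι) := by
    rw [Lt, add_mul, mul_add, smul_mul_assoc, smul_mul_assoc, mul_smul_comm, mul_smul_comm, h1, one_mul, mul_one]
  rw [h2, mul_assoc, Lt_sq TT_sq, toC_TT, ← Matrix.mul_kronecker_mul, Sm_Jm, toC_Qd]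

/-- the graded projections -/
noncomputable def R0 (ι : Type*) [Fintype ι] [DecidableEq ι] (p : ℤ) :
    Matrix ((ι ⊕ ι) × (ι ⊕ ι)) ((ι ⊕ ι) × (ι ⊕ ι)) ℂ :=
  if p = 2 then Pp ι ℂ ⊗ₖ Pp ι ℂ else if p = 1 then Pp ι ℂ ⊗ₖ Pm ι ℂ + Pm ι ℂ ⊗ₖ Pp ι ℂ else
    if p = 0 then Pm ι ℂ ⊗ₖ Pm ι ℂ else 0

theorem R_two : R0 ι 2 = Pp ι ℂ ⊗ₖ Pp ι ℂ := by simp [R0]

theorem R_one : R0 ι 1 = Pp ι ℂ ⊗ₖ Pm ι ℂ + Pm ι ℂ ⊗ₖ Pp ι ℂ := by simp [R0]

theorem R_zero : R0 ι 0 = Pm ι ℂ ⊗ₖ Pm ι ℂ := by simp [R0]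

theorem R_other {p : ℤ} (hp : p ∉ ({0, 1, 2} : Finset ℤ)) : R0 ι p = 0 := by
  simp only [Finset.mem_insert, Finset.mem_singleton, not_or] at hp
  rw [R0, if_neg hp.2.2, if_neg hp.2.1, if_neg hp.1]

theorem kron_zero' {m : Type*} (A : Matrix m m ℂ) : A ⊗ₖ (0 : Matrix m m ℂ) = 0 := by
  ext i j
  simp

theorem zero_kron' {m : Type*} (A : Matrix m m ℂ) : (0 : Matrix m m ℂ) ⊗ₖ A = 0 := by
  ext i j
  simp

theorem three_cases {p : ℤ} : p ∉ ({0, 1, 2} : Finset ℤ) ∨ p = 0 ∨ p = 1 ∨ p = 2 := by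
  simp only [Finset.mem_insert, Finset.mem_singleton, not_or]
  omega

theorem R_mul (p q : ℤ) : R0 ι p * R0 ι q = if p = q then R0 ι p else 0 := by
  rcases three_cases (p := p) with hp | rfl | rfl | rfl
  · rw [R_other hp, zero_mul]
    split_ifs <;> rfl
  all_goals rcases three_cases (p := q) with hq | rfl | rfl | rfl
  all_goals try
    rw [R_other hq, mul_zero, if_neg]
    rintro rfl
    revert hq
    decide
  all_goals simp only [R_two, R_one, R_zero, add_mul, mul_add, ← Matrix.mul_kronecker_mul, Pp_sq, Pm_sq, Pp_Pm, Pm_Pp,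
    kron_zero', zero_kron', add_zero, zero_add]
  all_goals norm_num

theorem R_sum : ∑ p ∈ ({0, 1, 2} : Finset ℤ), R0 ι p = 1 := by
  rw [Finset.sum_insert (by decide), Finset.sum_insert (by decide), Finset.sum_singleton, R_zero, R_one, R_two]
  calc Pm ι ℂ ⊗ₖ Pm ι ℂ + (Pp ι ℂ ⊗ₖ Pm ι ℂ + Pm ι ℂ ⊗ₖ Pp ι ℂ + Pp ι ℂ ⊗ₖ Pp ι ℂ)
      = (Pp ι ℂ + Pm ι ℂ) ⊗ₖ (Pp ι ℂ + Pm ι ℂ) := by
        rw [Matrix.add_kronecker, Matrix.kronecker_add, Matrix.kronecker_add]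
        abel
    _ = 1 := by rw [Pp_add, Matrix.one_kronecker_one]

theorem R_t (p : ℤ) : (R0 ι p)ᵀ = R0 ι p := by
  rcases three_cases (p := p) with hp | rfl | rfl | rfl
  · rw [R_other hp, Matrix.transpose_zero]
  · rw [R_zero, ← Matrix.kroneckerMap_transpose, Pm_t]
  · rw [R_one, Matrix.transpose_add, ← Matrix.kroneckerMap_transpose, ← Matrix.kroneckerMap_transpose, Pm_t, Pp_t]
  · rw [R_two, ← Matrix.kroneckerMap_transpose, Pp_t]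

theorem kron_map_conj {m : Type*} (A B : Matrix m m ℂ) :
    (A ⊗ₖ B).map (starRingEnd ℂ) = A.map (starRingEnd ℂ) ⊗ₖ B.map (starRingEnd ℂ) := by
  ext i j
  simp [kroneckerMap_apply]

theorem R_conj (p : ℤ) : (R0 ι p).map (starRingEnd ℂ) = R0 ι p := by
  rcases three_cases (p := p) with hp | rfl | rfl | rfl
  · rw [R_other hp, zero_map']
  · rw [R_zero, kron_map_conj, Pm_map]
  · rw [R_one, Matrix.map_add _ (map_add _), kron_map_conj, kron_map_conj, Pm_map, Pp_map]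
  · rw [R_two, kron_map_conj, Pp_map]

theorem J_conj_kron (A B : Matrix (ι ⊕ ι) (ι ⊕ ι) ℂ) : toC (TT ι) * (A ⊗ₖ B) * toC (TT ι) =
    (Jm ι ℂ * A * Jm ι ℂ) ⊗ₖ (Jm ι ℂ * B * Jm ι ℂ) := by
  rw [toC_TT, ← Matrix.mul_kronecker_mul, ← Matrix.mul_kronecker_mul]

theorem neg_kron_neg {m : Type*} (A B : Matrix m m ℂ) : (-A) ⊗ₖ (-B) = A ⊗ₖ B := by
  ext i j
  simp [kroneckerMap_apply]

theorem T_R_T (p : ℤ) : toC (TT ι) * R0 ι p * toC (TT ι) = R0 ι (2 - p) := by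
  have h1 : Jm ι ℂ * Pp ι ℂ * Jm ι ℂ = -Pm ι ℂ := by rw [Jm_Pp, mul_assoc, Jm_sq, mul_neg, mul_one]
  have h2 : Jm ι ℂ * Pm ι ℂ * Jm ι ℂ = -Pp ι ℂ := by rw [Jm_Pm, mul_assoc, Jm_sq, mul_neg, mul_one]
  rcases three_cases (p := p) with hp | rfl | rfl | rfl
  · rw [R_other hp, R_other, mul_zero, zero_mul]
    simp only [Finset.mem_insert, Finset.mem_singleton, not_or] at hp ⊢
    omega
  · norm_num
    rw [R_zero, R_two, J_conj_kron, h2, neg_kron_neg]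
  · norm_num
    rw [R_one, mul_add, add_mul, J_conj_kron, J_conj_kron, h1, h2, neg_kron_neg, neg_kron_neg, add_comm]
  · norm_num
    rw [R_zero, R_two, J_conj_kron, h1, neg_kron_neg]

theorem SS_R (p : ℤ) : (Sm ι ℂ ⊗ₖ Sm ι ℂ) * R0 ι p = R0 ι (2 - p) * (Sm ι ℂ ⊗ₖ Sm ι ℂ) := by
  rcases three_cases (p := p) with hp | rfl | rfl | rfl
  · rw [R_other hp, R_other, mul_zero, zero_mul]
    simp only [Finset.mem_insert, Finset.mem_singleton, not_or] at hp ⊢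
    omega
  · norm_num
    rw [R_zero, R_two, ← Matrix.mul_kronecker_mul, ← Matrix.mul_kronecker_mul, Sm_Pm]
  · norm_num
    rw [R_one, mul_add, add_mul, ← Matrix.mul_kronecker_mul, ← Matrix.mul_kronecker_mul, ← Matrix.mul_kronecker_mul,
      ← Matrix.mul_kronecker_mul, Sm_Pm, Sm_Pp, add_comm]
  · norm_num
    rw [R_zero, R_two, ← Matrix.mul_kronecker_mul, ← Matrix.mul_kronecker_mul, Sm_Pp]

/-- the sign of the form on the graded pieces -/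
theorem DD_R {p : ℤ} : (Dm ι ℂ ⊗ₖ Dm ι ℂ) * R0 ι p = (if p = 1 then (-1 : ℂ) else 1) • R0 ι p := by
  rcases three_cases (p := p) with hp | rfl | rfl | rfl
  · rw [R_other hp, mul_zero, smul_zero]
  · rw [R_zero, ← Matrix.mul_kronecker_mul, Dm_Pm, neg_kron_neg, if_neg (by norm_num), one_smul]
  · rw [R_one, mul_add, ← Matrix.mul_kronecker_mul, ← Matrix.mul_kronecker_mul, Dm_Pm, Dm_Pp, if_pos rfl]
    ext i j
    simp only [Matrix.add_apply, kroneckerMap_apply, Matrix.neg_apply, Matrix.smul_apply, smul_eq_mul]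
    ring
  · rw [R_two, ← Matrix.mul_kronecker_mul, Dm_Pp, if_neg (by norm_num), one_smul]

/-- an idempotent that commutes with everything -/
structure Ed (e : Matrix ((ι ⊕ ι) × (ι ⊕ ι)) ((ι ⊕ ι) × (ι ⊕ ι)) ℚ) : Prop where
  idem : e * e = e
  symm : eᵀ = e
  comT : TT ι * e = e * TT ι
  comR : ∀ p, R0 ι p * toC e = toC e * R0 ι p
  comg : ∀ g ∈ GT ι, (g ⊗ₖ g) * toC e = toC e * (g ⊗ₖ g)

variable {e : Matrix ((ι ⊕ ι) × (ι ⊕ ι)) ((ι ⊕ ι) × (ι ⊕ ι)) ℚ}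

theorem Ed.ee (h : Ed e) : toC e * toC e = toC e := by rw [← toC_mul', h.idem]

theorem Ed.comT' (h : Ed e) : toC (TT ι) * toC e = toC e * toC (TT ι) := by rw [← toC_mul', h.comT, toC_mul']

theorem Ed.et (h : Ed e) : (toC e)ᵀ = toC e := by
  conv_rhs => rw [← h.symm]
  rfl

theorem Ed.comSS (h : Ed e) : (Dm ι ℂ ⊗ₖ Dm ι ℂ) * toC e = toC e * (Dm ι ℂ ⊗ₖ Dm ι ℂ) := by
  have h1 : Dm ι ℂ ⊗ₖ Dm ι ℂ = ∑ p ∈ ({0, 1, 2} : Finset ℤ), (if p = 1 then (-1 : ℂ) else 1) • R0 ι p := by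
    rw [← mul_one (Dm ι ℂ ⊗ₖ Dm ι ℂ), ← R_sum, Finset.mul_sum]
    exact Finset.sum_congr rfl fun p _ => DD_R
  rw [h1, Finset.sum_mul, Finset.mul_sum]
  refine Finset.sum_congr rfl fun p _ => ?_
  rw [smul_mul_assoc, mul_smul_comm, h.comR]

/-- the projections on the image of the idempotent -/
noncomputable def Pe (e : Matrix ((ι ⊕ ι) × (ι ⊕ ι)) ((ι ⊕ ι) × (ι ⊕ ι)) ℚ) (p : ℤ) :
    Matrix ((ι ⊕ ι) × (ι ⊕ ι)) ((ι ⊕ ι) × (ι ⊕ ι)) ℂ := tw (TT ι) (R0 ι p * toC e)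

theorem Pe_mul (h : Ed e) (p q : ℤ) : Pe e p * Pe e q = if p = q then Pe e p else 0 := by
  rw [Pe, Pe, tw_mul TT_sq]
  have e1 : R0 ι p * toC e * (R0 ι q * toC e) = (R0 ι p * R0 ι q) * toC e := by
    calc R0 ι p * toC e * (R0 ι q * toC e) = R0 ι p * (toC e * R0 ι q) * toC e := by simp only [mul_assoc]
      _ = R0 ι p * R0 ι q * (toC e * toC e) := by rw [← h.comR]; simp only [mul_assoc]
      _ = _ := by rw [h.ee]
  rw [e1, R_mul]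
  split_ifs
  · rfl
  · rw [zero_mul, tw_zero]

/-- **The base point.** -/
theorem base_big (h : Ed e) : BigHW27 (Qd ι) e (Pe e) := by
  refine ⟨Pe_mul h, fun p hp => ?_, ?_, fun p => ?_, Qd_t, fun p q hpq => ?_, fun p v hv hv0 => ?_⟩
  · rw [Pe, R_other hp, zero_mul, tw_zero]
  · have h1 : ∑ p ∈ ({0, 1, 2} : Finset ℤ), Pe e p = tw (TT ι) (∑ p ∈ ({0, 1, 2} : Finset ℤ), R0 ι p * toC e) := by
      simp only [Pe, tw, Finset.mul_sum, Finset.sum_mul]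
    rw [h1, ← Finset.sum_mul, R_sum, one_mul, tw_of_comm TT_sq h.comT']
  · rw [Pe, tw_conj TT_sq, Matrix.map_mul, R_conj, toC_conj', Pe]
    congr 1
    calc toC (TT ι) * (R0 ι p * toC e) * toC (TT ι) = toC (TT ι) * R0 ι p * (toC e * toC (TT ι)) := by
          simp only [mul_assoc]
      _ = (toC (TT ι) * R0 ι p * toC (TT ι)) * toC e := by rw [← h.comT']; simp only [mul_assoc]
      _ = _ := by rw [T_R_T]
  · have e1 : (Pe e p)ᵀ = Lt (TT ι) * (toC e * R0 ι p) * Li (TT ι) := by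
      rw [Pe, tw, Matrix.transpose_mul, Matrix.transpose_mul, Matrix.transpose_mul, Lt_transpose TT_t,
        Li_transpose TT_t, h.et, R_t]
      simp only [mul_assoc]
    have e2 : (Sm ι ℂ ⊗ₖ Sm ι ℂ) * R0 ι q = R0 ι (2 - q) * (Sm ι ℂ ⊗ₖ Sm ι ℂ) := SS_R q
    rw [e1, Qd_eq, Pe, tw]
    calc Lt (TT ι) * (toC e * R0 ι p) * Li (TT ι) * -(Lt (TT ι) * (Sm ι ℂ ⊗ₖ Sm ι ℂ) * Lt (TT ι)) *
          (Li (TT ι) * (R0 ι q * toC e) * Lt (TT ι))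
        = -(Lt (TT ι) * (toC e * R0 ι p) * (Li (TT ι) * Lt (TT ι)) * (Sm ι ℂ ⊗ₖ Sm ι ℂ) * (Lt (TT ι) * Li (TT ι)) *
          (R0 ι q * toC e) * Lt (TT ι)) := by simp only [mul_assoc, mul_neg, neg_mul]
      _ = -(Lt (TT ι) * toC e * R0 ι p * ((Sm ι ℂ ⊗ₖ Sm ι ℂ) * R0 ι q) * toC e * Lt (TT ι)) := by
          rw [Li_mul_Lt TT_sq, Lt_mul_Li TT_sq, mul_one, mul_one]; simp only [mul_assoc]
      _ = -(Lt (TT ι) * toC e * (R0 ι p * R0 ι (2 - q)) * (Sm ι ℂ ⊗ₖ Sm ι ℂ) * toC e * Lt (TT ι)) := by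
          rw [e2]; simp only [mul_assoc]
      _ = 0 := by
          rw [R_mul, if_neg (fun hh => hpq (by omega))]
          simp
  · obtain ⟨w, hw⟩ : ∃ w, w = Lt (TT ι) *ᵥ v := ⟨_, rfl⟩
    have hvw : v = Li (TT ι) *ᵥ w := by rw [hw, Matrix.mulVec_mulVec, Li_mul_Lt TT_sq, Matrix.one_mulVec]
    have hw0 : w ≠ 0 := by
      intro h0
      rw [h0, Matrix.mulVec_zero] at hvw
      exact hv0 hvw
    have hRw : R0 ι p *ᵥ w = w := by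
      have h1 : (R0 ι p * toC e) *ᵥ w = w := by
        conv_rhs => rw [hw, ← hv]
        rw [Pe, tw, Matrix.mulVec_mulVec, ← mul_assoc, ← mul_assoc, Lt_mul_Li TT_sq, one_mul, hw,
          Matrix.mulVec_mulVec]
      conv_rhs => rw [← h1]
      conv_lhs => rw [← h1]
      rw [Matrix.mulVec_mulVec, ← mul_assoc, R_mul, if_pos rfl]
    have hst : Lt (TT ι) *ᵥ star v = toC (TT ι) *ᵥ star w := by
      have h1 : star w = Li (TT ι) *ᵥ star v := by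
        rw [hw]
        funext i
        simp only [Pi.star_apply, Matrix.mulVec, dotProduct, star_sum, star_mul']
        refine Finset.sum_congr rfl fun j _ => ?_
        congr 1
        have h2 := congrFun (congrFun (Lt_conj (T := TT ι)) i) j
        rwa [Matrix.map_apply] at h2
      rw [h1, Matrix.mulVec_mulVec, T_mul_Li TT_sq]
    have hform : v ⬝ᵥ (toC (Qd ι) *ᵥ star v) = -(w ⬝ᵥ ((Dm ι ℂ ⊗ₖ Dm ι ℂ) *ᵥ star w)) := by
      rw [Qd_eq, Matrix.neg_mulVec, dotProduct_neg, ← Matrix.mulVec_mulVec, ← Matrix.mulVec_mulVec, hst,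
        Matrix.dotProduct_mulVec, ← Matrix.mulVec_transpose, Lt_transpose TT_t, ← hw, Matrix.mulVec_mulVec, toC_TT,
        ← Matrix.mul_kronecker_mul, Sm_Jm]
    have hRs : R0 ι p *ᵥ star w = star w := by
      have h1 := star_mulVec_real (R_conj (ι := ι) p) w
      rw [hRw] at h1
      exact h1.symm
    have hDw : (Dm ι ℂ ⊗ₖ Dm ι ℂ) *ᵥ star w = (if p = 1 then (-1 : ℂ) else 1) • star w := by
      conv_lhs => rw [← hRs]
      rw [Matrix.mulVec_mulVec, DD_R, Matrix.smul_mulVec, hRs]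
    rw [hform, hDw, dotProduct_smul, smul_eq_mul]
    have hpos : 0 < (w ⬝ᵥ star w).re := by
      have h1 : w ⬝ᵥ star w = ((∑ i, Complex.normSq (w i) : ℝ) : ℂ) := by
        rw [dotProduct, Complex.ofReal_sum]
        refine Finset.sum_congr rfl fun i _ => ?_
        rw [Pi.star_apply, Complex.star_def, Complex.mul_conj]
      rw [h1, Complex.ofReal_re]
      obtain ⟨i, hi⟩ : ∃ i, w i ≠ 0 := by
        by_contra hcon
        push Not at hcon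
        exact hw0 (funext hcon)
      exact Finset.sum_pos' (fun j _ => Complex.normSq_nonneg _) ⟨i, Finset.mem_univ i, Complex.normSq_pos.2 hi⟩
    have hp3 : p = 0 ∨ p = 1 ∨ p = 2 := by
      rcases three_cases (p := p) with hp | hp
      · rw [R_other hp, Matrix.zero_mulVec] at hRw
        exact absurd hRw.symm hw0
      · exact hp
    rcases hp3 with rfl | rfl | rfl
    · have h2 : Complex.I ^ (2 * (0 : ℤ) - 2) = -1 := by
        have h3 : (2 * (0 : ℤ) - 2) = -2 := by norm_num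
        rw [h3, _root_.zpow_neg]
        norm_num
      rw [h2, if_neg (by norm_num)]
      simpa using hpos
    · have h2 : Complex.I ^ (2 * (1 : ℤ) - 2) = 1 := by norm_num
      rw [h2, if_pos rfl]
      simpa using hpos
    · have h2 : Complex.I ^ (2 * (2 : ℤ) - 2) = -1 := by norm_num
      rw [h2, if_neg (by norm_num)]
      simpa using hpos

/-! ### the family -/

/-- the real isometry -/
noncomputable def GG (g : Matrix (ι ⊕ ι) (ι ⊕ ι) ℂ) : Matrix ((ι ⊕ ι) × (ι ⊕ ι)) ((ι ⊕ ι) × (ι ⊕ ι)) ℂ :=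
  tw (TT ι) (g ⊗ₖ g)

theorem GG_mul (g h : Matrix (ι ⊕ ι) (ι ⊕ ι) ℂ) : GG g * GG h = GG (g * h) := by
  rw [GG, GG, tw_mul TT_sq, ← Matrix.mul_kronecker_mul]
  rfl

theorem GG_one : GG (1 : Matrix (ι ⊕ ι) (ι ⊕ ι) ℂ) = 1 := by
  rw [GG, Matrix.one_kronecker_one, tw_one TT_sq]

theorem GG_gi {g : Matrix (ι ⊕ ι) (ι ⊕ ι) ℂ} (hg : g ∈ GT ι) : GG g * GG (gi g) = 1 := by
  rw [GG_mul, mul_gi hg, GG_one]

theorem gi_GG {g : Matrix (ι ⊕ ι) (ι ⊕ ι) ℂ} (hg : g ∈ GT ι) : GG (gi g) * GG g = 1 := by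
  rw [GG_mul, gi_mul hg, GG_one]

theorem GG_conj {g : Matrix (ι ⊕ ι) (ι ⊕ ι) ℂ} (hg : g ∈ GT ι) : (GG g).map (starRingEnd ℂ) = GG g := by
  rw [GG, tw_conj TT_sq, kron_map_conj, J_conj_kron, hg.2, mul_assoc, Jm_sq, mul_neg, mul_one, neg_kron_neg]

theorem GG_Q {g : Matrix (ι ⊕ ι) (ι ⊕ ι) ℂ} (hg : g ∈ GT ι) : (GG g)ᵀ * toC (Qd ι) * GG g = toC (Qd ι) := by
  have e1 : (GG g)ᵀ = Lt (TT ι) * (gᵀ ⊗ₖ gᵀ) * Li (TT ι) := by
    rw [GG, tw, Matrix.transpose_mul, Matrix.transpose_mul, Lt_transpose TT_t, Li_transpose TT_t,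
      ← Matrix.kroneckerMap_transpose, mul_assoc]
  rw [e1, Qd_eq, GG, tw]
  calc Lt (TT ι) * (gᵀ ⊗ₖ gᵀ) * Li (TT ι) * -(Lt (TT ι) * (Sm ι ℂ ⊗ₖ Sm ι ℂ) * Lt (TT ι)) *
        (Li (TT ι) * (g ⊗ₖ g) * Lt (TT ι))
      = -(Lt (TT ι) * ((gᵀ ⊗ₖ gᵀ) * (Li (TT ι) * Lt (TT ι)) * (Sm ι ℂ ⊗ₖ Sm ι ℂ) * (Lt (TT ι) * Li (TT ι)) *
        (g ⊗ₖ g)) * Lt (TT ι)) := by simp only [mul_assoc, mul_neg, neg_mul]
    _ = _ := by
        rw [Li_mul_Lt TT_sq, Lt_mul_Li TT_sq, mul_one, mul_one, ← Matrix.mul_kronecker_mul,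
          ← Matrix.mul_kronecker_mul, hg.1]

theorem GG_e (h : Ed e) {g : Matrix (ι ⊕ ι) (ι ⊕ ι) ℂ} (hg : g ∈ GT ι) : GG g * toC e * GG (gi g) = toC e := by
  have h1 : toC e = tw (TT ι) (toC e) := (tw_of_comm TT_sq h.comT').symm
  conv_lhs => rw [h1]
  rw [GG, tw_mul TT_sq, h.comg g hg, ← tw_mul TT_sq, mul_assoc]
  have h2 : tw (TT ι) (g ⊗ₖ g) * GG (gi g) = 1 := GG_gi hg
  rw [h2, mul_one, ← h1]

/-- **The family.** -/
theorem fam_big (h : Ed e) {g : Matrix (ι ⊕ ι) (ι ⊕ ι) ℂ} (hg : g ∈ GT ι) :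
    BigHW27 (Qd ι) e (fun p => GG g * Pe e p * GG (gi g)) :=
  (base_big h).conj27 (GG_gi hg) (gi_GG hg) (GG_conj hg) (GG_Q hg) (GG_e h hg)

end MH.QS94
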