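import Pool.Agent.Helper94.QS.Fin

/-!
Quaternionic skew-Hermitian forms (MP_b8862a_ag): the alternating and the traceless symmetric square.
-/

set_option linter.unusedSectionVars false

open Matrix Kronecker

namespace MH.QS94

open MH.Her27

variable {ι : Type} [Fintype ι] [DecidableEq ι]


section ring

variable (ι : Type*) [Fintype ι] [DecidableEq ι] (K : Type*) [CommRing K]

/-- the invariant vector -/
def hv : (ι ⊕ ι) × (ι ⊕ ι) → K := fun a => Sm ι K a.1 a.2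

/-- the matrix of the invariant vector -/
def ZZ : Matrix ((ι ⊕ ι) × (ι ⊕ ι)) ((ι ⊕ ι) × (ι ⊕ ι)) K := vecMulVec (hv ι K) (hv ι K)

variable {ι K}

theorem kron_mv (A B M : Matrix (ι ⊕ ι) (ι ⊕ ι) K) :
    (A ⊗ₖ B) *ᵥ (fun a => M a.1 a.2) = fun a => (A * M * Bᵀ) a.1 a.2 := by
  funext a
  simp only [Matrix.mulVec, dotProduct, kroneckerMap_apply, Fintype.sum_prod_type, Matrix.mul_apply,
    Matrix.transpose_apply, Finset.sum_mul]
  rw [Finset.sum_comm]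
  refine Finset.sum_congr rfl fun x _ => Finset.sum_congr rfl fun y _ => ?_
  ring

theorem kron_ZZ (A B : Matrix (ι ⊕ ι) (ι ⊕ ι) K) :
    (A ⊗ₖ B) * ZZ ι K = vecMulVec (fun a => (A * Sm ι K * Bᵀ) a.1 a.2) (hv ι K) := by
  rw [ZZ, Matrix.mul_vecMulVec]
  congr 1
  exact kron_mv A B (Sm ι K)

theorem ZZ_t : (ZZ ι K)ᵀ = ZZ ι K := by
  ext a b
  simp only [ZZ, Matrix.transpose_apply, vecMulVec_apply]
  ring

theorem hv_dot : hv ι K ⬝ᵥ hv ι K = (2 * Fintype.card ι : K) := by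
  have h1 : hv ι K ⬝ᵥ hv ι K = (Sm ι K * (Sm ι K)ᵀ).trace := by
    simp only [dotProduct, hv, Fintype.sum_prod_type, Matrix.trace, Matrix.diag, Matrix.mul_apply,
      Matrix.transpose_apply]
  rw [h1, Sm_t, Sm_sq, Matrix.trace_one, Fintype.card_sum]
  push_cast
  ring

theorem ZZ_ZZ : ZZ ι K * ZZ ι K = (2 * Fintype.card ι : K) • ZZ ι K := by
  rw [ZZ, Matrix.vecMulVec_mul_vecMulVec, hv_dot]
  ext a b
  simp [vecMulVec_apply]
  try ring

theorem tau_ZZ : Her27.tau (ι ⊕ ι) K * ZZ ι K = ZZ ι K := by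
  ext a b
  rw [tau_mul_apply]
  simp only [ZZ, vecMulVec_apply, hv]
  congr 1
  have h1 := congrFun (congrFun (Sm_t (ι := ι) (K := K)) a.1) a.2
  rwa [Matrix.transpose_apply] at h1

theorem ZZ_tau : ZZ ι K * Her27.tau (ι ⊕ ι) K = ZZ ι K := by
  have h1 := congrArg Matrix.transpose (tau_ZZ (ι := ι) (K := K))
  rwa [Matrix.transpose_mul, tau_transpose, ZZ_t] at h1

theorem ZZ_trace : (ZZ ι K).trace = (2 * Fintype.card ι : K) := by
  rw [← hv_dot]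
  simp only [ZZ, Matrix.trace, Matrix.diag, vecMulVec_apply, dotProduct]

theorem ZZ_map {L : Type*} [CommRing L] (f : K →+* L) : (ZZ ι K).map f = ZZ ι L := by
  ext a b
  have h1 : ∀ x y, f (Sm ι K x y) = Sm ι L x y := fun x y => congrFun (congrFun (Sm_map (ι := ι) f) x) y
  simp only [Matrix.map_apply, ZZ, vecMulVec_apply, hv, map_mul, h1]

/-- an operator that fixes the form -/
theorem kron_ZZ_fix {A : Matrix (ι ⊕ ι) (ι ⊕ ι) K} (h : A * Sm ι K * Aᵀ = Sm ι K) : (A ⊗ₖ A) * ZZ ι K = ZZ ι K := by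
  rw [kron_ZZ, h]
  rfl

theorem trace_kron_tau (A B : Matrix (ι ⊕ ι) (ι ⊕ ι) K) : ((A ⊗ₖ B) * Her27.tau (ι ⊕ ι) K).trace = (A * B).trace := by
  have h1 : ∀ a, ((A ⊗ₖ B) * Her27.tau (ι ⊕ ι) K) a a = A a.1 a.2 * B a.2 a.1 := by
    intro a
    rw [mul_tau_apply, kroneckerMap_apply]
  simp only [Matrix.trace, Matrix.diag, h1, Fintype.sum_prod_type]
  simp only [Matrix.mul_apply]

end ring

theorem toC_tau : toC (Her27.tau (ι ⊕ ι) ℚ) = Her27.tau (ι ⊕ ι) ℂ := tau_map _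

theorem toC_ZZ : toC (ZZ ι ℚ) = ZZ ι ℂ := ZZ_map _

/-- the idempotent of the alternating square -/
def eA (ι : Type*) [Fintype ι] [DecidableEq ι] : Matrix ((ι ⊕ ι) × (ι ⊕ ι)) ((ι ⊕ ι) × (ι ⊕ ι)) ℚ :=
  (1 / 2 : ℚ) • (1 - Her27.tau (ι ⊕ ι) ℚ)

/-- the idempotent of the traceless symmetric square -/
def eS (ι : Type*) [Fintype ι] [DecidableEq ι] : Matrix ((ι ⊕ ι) × (ι ⊕ ι)) ((ι ⊕ ι) × (ι ⊕ ι)) ℚ :=
  (1 / 2 : ℚ) • (1 + Her27.tau (ι ⊕ ι) ℚ) - (1 / (2 * Fintype.card ι) : ℚ) • ZZ ι ℚ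

theorem toC_smul' {m : Type*} [Fintype m] [DecidableEq m] (c : ℚ) (A : Matrix m m ℚ) : toC (c • A) = (c : ℂ) • toC A := by
  ext i j
  simp [toC]

theorem toC_eA : toC (eA ι) = (1 / 2 : ℂ) • (1 - Her27.tau (ι ⊕ ι) ℂ) := by
  rw [eA, toC_smul', toC_sub', toC_one', toC_tau]
  norm_num

theorem toC_eS : toC (eS ι) = (1 / 2 : ℂ) • (1 + Her27.tau (ι ⊕ ι) ℂ) - (1 / (2 * Fintype.card ι) : ℂ) • ZZ ι ℂ := by
  rw [eS, toC_sub', toC_smul', toC_smul', toC_add', toC_one', toC_tau, toC_ZZ]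
  push_cast
  rfl

theorem R_tau (p : ℤ) : R0 ι p * Her27.tau (ι ⊕ ι) ℂ = Her27.tau (ι ⊕ ι) ℂ * R0 ι p := by
  rcases three_cases (p := p) with hp | rfl | rfl | rfl
  · rw [R_other hp, zero_mul, mul_zero]
  · rw [R_zero, tau_kron]
  · rw [R_one, mul_add, add_mul, tau_kron, tau_kron, add_comm]
  · rw [R_two, tau_kron]

theorem R_ZZ (p : ℤ) : R0 ι p * ZZ ι ℂ = if p = 1 then ZZ ι ℂ else 0 := by
  have h0 : vecMulVec (fun a : (ι ⊕ ι) × (ι ⊕ ι) => (0 : Matrix (ι ⊕ ι) (ι ⊕ ι) ℂ) a.1 a.2) (hv ι ℂ) = 0 := by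
    ext a b
    simp [vecMulVec_apply]
  have h1 : Pp ι ℂ * Sm ι ℂ = Sm ι ℂ * Pm ι ℂ := Sm_Pm.symm
  have h2 : Pm ι ℂ * Sm ι ℂ = Sm ι ℂ * Pp ι ℂ := Sm_Pp.symm
  rcases three_cases (p := p) with hp | rfl | rfl | rfl
  · rw [R_other hp, zero_mul, if_neg]
    rintro rfl
    revert hp
    decide
  · rw [R_zero, kron_ZZ, Pm_t, h2, mul_assoc, Pp_Pm, mul_zero, h0]
    rfl
  · rw [R_one, add_mul, kron_ZZ, kron_ZZ, Pm_t, Pp_t, h1, h2, mul_assoc, mul_assoc, Pm_sq, Pp_sq, if_pos rfl, ZZ]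
    have h3 : Sm ι ℂ * Pm ι ℂ + Sm ι ℂ * Pp ι ℂ = Sm ι ℂ := by
      rw [← mul_add, add_comm, Pp_add, mul_one]
    have h4 : hv ι ℂ = (fun a : (ι ⊕ ι) × (ι ⊕ ι) => (Sm ι ℂ * Pm ι ℂ) a.1 a.2) +
        fun a : (ι ⊕ ι) × (ι ⊕ ι) => (Sm ι ℂ * Pp ι ℂ) a.1 a.2 := by
      funext a
      have := congrFun (congrFun h3 a.1) a.2
      rw [Matrix.add_apply] at this
      exact this.symm
    conv_rhs => rw [h4, Matrix.add_vecMulVec]
    rw [← h4]
  · rw [R_two, kron_ZZ, Pp_t, h1, mul_assoc, Pm_Pp, mul_zero, h0]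
    rfl

theorem ZZ_R (p : ℤ) : ZZ ι ℂ * R0 ι p = if p = 1 then ZZ ι ℂ else 0 := by
  have h1 := congrArg Matrix.transpose (R_ZZ (ι := ι) p)
  rw [Matrix.transpose_mul, R_t, ZZ_t] at h1
  rw [h1]
  split_ifs
  · exact ZZ_t
  · exact Matrix.transpose_zero

theorem edA : Ed (eA ι) := by
  have h1 : Her27.tau (ι ⊕ ι) ℚ * Her27.tau (ι ⊕ ι) ℚ = 1 := tau_mul_tau
  refine ⟨?_, ?_, ?_, fun p => ?_, fun g _ => ?_⟩
  · rw [eA, smul_mul_smul_comm, sub_mul, mul_sub, mul_sub, one_mul, mul_one, one_mul, h1]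
    module
  · rw [eA, Matrix.transpose_smul, Matrix.transpose_sub, Matrix.transpose_one, tau_transpose]
  · rw [eA, mul_smul_comm, smul_mul_assoc, mul_sub, sub_mul, mul_one, one_mul, TT, tau_kron]
  · rw [toC_eA, mul_smul_comm, smul_mul_assoc, mul_sub, sub_mul, mul_one, one_mul, R_tau]
  · rw [toC_eA, mul_smul_comm, smul_mul_assoc, mul_sub, sub_mul, mul_one, one_mul, tau_kron]

theorem card_ne' [Nonempty ι] : (2 * Fintype.card ι : ℚ) ≠ 0 := by
  have h := Fintype.card_ne_zero (α := ι)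
  have h2 : (Fintype.card ι : ℚ) ≠ 0 := by exact_mod_cast h
  exact mul_ne_zero two_ne_zero h2

theorem TT_ZZ : TT ι * ZZ ι ℚ = -ZZ ι ℚ := by
  rw [TT, kron_ZZ, Jm_t, ZZ]
  have h1 : Jm ι ℚ * Sm ι ℚ * -Jm ι ℚ = -Sm ι ℚ := by
    rw [Jm_Sm, neg_mul_neg]
    simp [Dm, Jm, Sm, fromBlocks_multiply, fromBlocks_neg]
  rw [h1]
  ext a b
  simp [vecMulVec_apply, hv]

theorem ZZ_TT : ZZ ι ℚ * TT ι = -ZZ ι ℚ := by
  have h1 := congrArg Matrix.transpose (TT_ZZ (ι := ι))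
  rwa [Matrix.transpose_mul, TT_t, ZZ_t, Matrix.transpose_neg, ZZ_t] at h1

theorem edS [Nonempty ι] : Ed (eS ι) := by
  have h1 : Her27.tau (ι ⊕ ι) ℚ * Her27.tau (ι ⊕ ι) ℚ = 1 := tau_mul_tau
  have hc := card_ne' (ι := ι)
  refine ⟨?_, ?_, ?_, fun p => ?_, fun g hg => ?_⟩
  · obtain ⟨N, hN⟩ : ∃ N : ℚ, N = 2 * Fintype.card ι := ⟨_, rfl⟩
    have h2 : ZZ ι ℚ * ZZ ι ℚ = N • ZZ ι ℚ := by rw [hN]; exact ZZ_ZZ
    rw [eS, ← hN]
    rw [← hN] at hc
    simp only [sub_mul, mul_sub, smul_mul_assoc, mul_smul_comm, add_mul, mul_add, one_mul, mul_one, h1, tau_ZZ, ZZ_tau,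
      h2, smul_add, smul_smul]
    have h3 : 1 / N * N = 1 := by field_simp
    rw [h3]
    module
  · rw [eS, Matrix.transpose_sub, Matrix.transpose_smul, Matrix.transpose_smul, Matrix.transpose_add,
      Matrix.transpose_one, tau_transpose, ZZ_t]
  · rw [eS, mul_sub, sub_mul, mul_smul_comm, smul_mul_assoc, mul_add, add_mul, mul_one, one_mul, mul_smul_comm,
      smul_mul_assoc, TT_ZZ, ZZ_TT, TT, tau_kron]
  · rw [toC_eS, mul_sub, sub_mul, mul_smul_comm, smul_mul_assoc, mul_add, add_mul, mul_one, one_mul, mul_smul_comm,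
      smul_mul_assoc, R_tau, R_ZZ, ZZ_R]
  · have e1 : (g ⊗ₖ g) * ZZ ι ℂ = ZZ ι ℂ := kron_ZZ_fix (gSg hg)
    have e2 : ZZ ι ℂ * (g ⊗ₖ g) = ZZ ι ℂ := by
      have e3 : (gᵀ ⊗ₖ gᵀ) * ZZ ι ℂ = ZZ ι ℂ := kron_ZZ_fix (by rw [Matrix.transpose_transpose]; exact hg.1)
      have e4 := congrArg Matrix.transpose e3
      rwa [Matrix.transpose_mul, ZZ_t, ← Matrix.kroneckerMap_transpose, Matrix.transpose_transpose] at e4
    rw [toC_eS, mul_sub, sub_mul, mul_smul_comm, smul_mul_assoc, mul_add, add_mul, mul_one, one_mul, mul_smul_comm,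
      smul_mul_assoc, e1, e2, tau_kron]

/-! ### matrices that commute with the Lie algebra -/

theorem mv_ext {m : Type*} [Fintype m] [DecidableEq m] {A B : Matrix (m × m) (m × m) ℂ}
    (h : ∀ p q : m, A *ᵥ tv (Pi.single p 1) (Pi.single q 1) = B *ᵥ tv (Pi.single p 1) (Pi.single q 1)) : A = B := by
  have h1 : ∀ p q : m, tv (Pi.single p (1 : ℂ)) (Pi.single q 1) = Pi.single (p, q) 1 := by
    intro p q
    funext x
    obtain ⟨x, y⟩ := x
    simp only [tv, Pi.single_apply, Prod.mk.injEq]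
    by_cases h1 : x = p <;> by_cases h2 : y = q <;> simp [h1, h2]
  ext x ⟨p, q⟩
  have h2 := congrFun (h p q) x
  rw [h1, Matrix.mulVec_single_one, Matrix.mulVec_single_one] at h2
  exact h2

theorem tau_tv {m : Type*} [Fintype m] [DecidableEq m] (u v : m → ℂ) : Her27.tau m ℂ *ᵥ tv u v = tv v u := by
  funext x
  obtain ⟨x, y⟩ := x
  rw [Matrix.mulVec, dotProduct, Finset.sum_eq_single (y, x)]
  · simp [MH.Her27.tau, tv]
    ring
  · rintro ⟨c, d⟩ _ hc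
    have : ¬ (x = d ∧ y = c) := by
      rintro ⟨h1, h2⟩
      exact hc (Prod.ext h2.symm h1.symm)
    simp [MH.Her27.tau, this]
  · intro h
    exact absurd (Finset.mem_univ _) h

theorem eA_tv (u v : ι ⊕ ι → ℂ) : toC (eA ι) *ᵥ tv u v = (1 / 2 : ℂ) • wd (-1) u v := by
  rw [toC_eA, Matrix.smul_mulVec, Matrix.sub_mulVec, Matrix.one_mulVec, tau_tv, wd]
  module

theorem hend_A [Nonempty ι] (h3 : Three ι) (b : Matrix ((ι ⊕ ι) × (ι ⊕ ι)) ((ι ⊕ ι) × (ι ⊕ ι)) ℂ)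
    (hbe : b * toC (eA ι) = b) (heb : toC (eA ι) * b = b) (hc : Cm b) : ∃ l : ℂ, b = l • toC (eA ι) := by
  obtain ⟨a0⟩ := ‹Nonempty ι›
  obtain ⟨c0, hc0, -⟩ := h3 a0 a0
  obtain ⟨l, hl⟩ := hc.alt h3 hc0.symm (fun w p q => by
    have h1 : Her27.tau (ι ⊕ ι) ℂ * b = -b := by
      have h2 : Her27.tau (ι ⊕ ι) ℂ * toC (eA ι) = -toC (eA ι) := by
        have h4 : Her27.tau (ι ⊕ ι) ℂ * Her27.tau (ι ⊕ ι) ℂ = 1 := tau_mul_tau
        rw [toC_eA, mul_smul_comm, mul_sub, mul_one, h4, ← smul_neg, neg_sub]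
      rw [← heb, ← mul_assoc, h2, neg_mul]
    have h3 : b *ᵥ w = -(Her27.tau (ι ⊕ ι) ℂ *ᵥ (b *ᵥ w)) := by
      rw [Matrix.mulVec_mulVec, h1, Matrix.neg_mulVec, neg_neg]
    obtain ⟨v, hv⟩ : ∃ v, v = b *ᵥ w := ⟨_, rfl⟩
    rw [← hv] at h3 ⊢
    have h5 := congrFun h3 (p, q)
    rw [h5, Pi.neg_apply]
    congr 1
    rw [Matrix.mulVec, dotProduct, Finset.sum_eq_single (q, p)]
    · simp [MH.Her27.tau]
    · rintro ⟨c, d⟩ _ hcd
      have : ¬ (p = d ∧ q = c) := by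
        rintro ⟨h1, h2⟩
        exact hcd (Prod.ext h2.symm h1.symm)
      simp [MH.Her27.tau, this]
    · intro h
      exact absurd (Finset.mem_univ _) h)
  have hdg : ∀ a, Eig b l (wd (-1) (xx a) (yy a)) := by
    intro a
    obtain ⟨c, hca, -⟩ := h3 a a
    obtain ⟨d, hda, hdc⟩ := h3 a c
    have h1 := hl.sdg a c hca.symm
    have h2 := hl.sdg a d hda.symm
    have h4 := hl.sdg c d hdc.symm
    refine Eig.of_smul (c := 2) two_ne_zero ?_
    have h5 := (h1.add h2).sub h4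
    have e1 : wd (-1) (xx a) (yy a) - (-1 : ℂ) • wd (-1) (xx c) (yy c) + (wd (-1) (xx a) (yy a) -
        (-1 : ℂ) • wd (-1) (xx d) (yy d)) - (wd (-1) (xx c) (yy c) - (-1 : ℂ) • wd (-1) (xx d) (yy d)) =
        (2 : ℂ) • wd (-1) (xx a) (yy a) := by module
    rwa [e1] at h5
  have hzero : ∀ u : ι ⊕ ι → ℂ, wd (-1) u u = 0 := by
    intro u
    rw [wd]
    module
  have hall : ∀ p q : ι ⊕ ι, Eig b l (wd (-1) (Pi.single p 1) (Pi.single q 1)) := by
    rintro (a | a) (c | c)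
    · by_cases hac : a = c
      · rw [hac, hzero]; exact Eig.zero
      · exact hl.sxx a c hac
    · by_cases hac : a = c
      · rw [hac]; exact hdg c
      · exact hl.sxy a c hac
    · have h1 : Eig b l (wd (-1) (xx c) (yy a)) := by
        by_cases hac : a = c
        · rw [hac]; exact hdg c
        · exact hl.sxy c a (Ne.symm hac)
      have h2 := h1.smul (-1)
      rw [← wd_swap (by norm_num) (xx c) (yy a)] at h2
      exact h2
    · by_cases hac : a = c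
      · rw [hac, hzero]; exact Eig.zero
      · exact hl.syy a c hac
  refine ⟨l, mv_ext fun p q => ?_⟩
  conv_lhs => rw [← hbe]
  rw [← Matrix.mulVec_mulVec, Matrix.smul_mulVec, eA_tv]
  exact ((hall p q).smul (1 / 2))

theorem hv_eq : hv ι ℂ = ∑ c : ι, wd 1 (xx c) (yy c) := by
  funext x
  rw [Finset.sum_apply]
  simp only [wd, tv, xx, yy, Pi.add_apply, Pi.smul_apply, smul_eq_mul, one_mul, Pi.single_apply, hv]
  obtain ⟨x, y⟩ := x
  rcases x with x | x <;> rcases y with y | y <;> simp [Sm, Matrix.one_apply, eq_comm]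

theorem ZZ_tv (u v : ι ⊕ ι → ℂ) : ZZ ι ℂ *ᵥ tv u v = (hv ι ℂ ⬝ᵥ tv u v) • hv ι ℂ := by
  rw [ZZ, Matrix.vecMulVec_mulVec]
  funext x
  simp [mul_comm]

theorem eS_tv (u v : ι ⊕ ι → ℂ) : toC (eS ι) *ᵥ tv u v = (1 / 2 : ℂ) • wd 1 u v -
    ((1 / (2 * Fintype.card ι) : ℂ) * (hv ι ℂ ⬝ᵥ tv u v)) • hv ι ℂ := by
  rw [toC_eS, Matrix.sub_mulVec, Matrix.smul_mulVec, Matrix.smul_mulVec, Matrix.add_mulVec, Matrix.one_mulVec, tau_tv,
    ZZ_tv, wd, smul_smul, one_smul]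

theorem hv_single (p q : ι ⊕ ι) : hv ι ℂ ⬝ᵥ tv (Pi.single p 1) (Pi.single q 1) = Sm ι ℂ p q := by
  have h1 : tv (Pi.single p (1 : ℂ)) (Pi.single q 1) = Pi.single (p, q) 1 := by
    funext x
    obtain ⟨x, y⟩ := x
    simp only [tv, Pi.single_apply, Prod.mk.injEq]
    by_cases h1 : x = p <;> by_cases h2 : y = q <;> simp [h1, h2]
  rw [h1, dotProduct_single, mul_one]
  rfl

theorem hend_S [Nonempty ι] (h3 : Three ι) (b : Matrix ((ι ⊕ ι) × (ι ⊕ ι)) ((ι ⊕ ι) × (ι ⊕ ι)) ℂ)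
    (hbe : b * toC (eS ι) = b) (_heb : toC (eS ι) * b = b) (hc : Cm b) : ∃ l : ℂ, b = l • toC (eS ι) := by
  obtain ⟨a0⟩ := ‹Nonempty ι›
  have : Nonempty ι := ⟨a0⟩
  obtain ⟨l, hl, hx, hy⟩ := hc.sym h3 (a0 := a0)
  have hN : (2 * Fintype.card ι : ℂ) ≠ 0 := by
    have := card_ne' (ι := ι)
    exact_mod_cast this
  have hdg : ∀ a, Eig b l ((1 / 2 : ℂ) • wd 1 (xx a) (yy a) - (1 / (2 * Fintype.card ι) : ℂ) • hv ι ℂ) := by
    intro a
    have h1 : (1 / 2 : ℂ) • wd 1 (xx a) (yy a) - (1 / (2 * Fintype.card ι) : ℂ) • hv ι ℂ =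
        (1 / (2 * Fintype.card ι) : ℂ) • ∑ c : ι, (wd 1 (xx a) (yy a) - wd 1 (xx c) (yy c)) := by
      rw [Finset.sum_sub_distrib, Finset.sum_const, Finset.card_univ, ← hv_eq, smul_sub, ← Nat.cast_smul_eq_nsmul ℂ,
        smul_smul]
      congr 2
      have h2 : (Fintype.card ι : ℂ) ≠ 0 := fun h => hN (by rw [h, mul_zero])
      field_simp
    rw [h1]
    refine Eig.smul (Eig.sum _ _ fun c _ => ?_) _
    by_cases hac : a = c
    · rw [hac, sub_self]; exact Eig.zero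
    · have := hl.sdg a c hac
      rwa [one_smul] at this
  have hcard : (Fintype.card ι : ℂ) ≠ 0 := fun h => hN (by rw [h, mul_zero])
  have key : ∀ p q : ι ⊕ ι, Eig b l (toC (eS ι) *ᵥ tv (Pi.single p 1) (Pi.single q 1)) := by
    intro p q
    rw [eS_tv, hv_single]
    rcases p with a | a <;> rcases q with c | c
    · have h0 : Sm ι ℂ (Sum.inl a) (Sum.inl c) = 0 := by simp [Sm]
      rw [h0, mul_zero, zero_smul, sub_zero]
      refine Eig.smul ?_ _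
      by_cases hac : a = c
      · rw [hac, wd, one_smul]
        exact (hx c).add (hx c)
      · exact hl.sxx a c hac
    · by_cases hac : a = c
      · have h0 : Sm ι ℂ (Sum.inl a) (Sum.inr c) = 1 := by simp [Sm, hac]
        rw [h0, mul_one, hac]
        exact hdg c
      · have h0 : Sm ι ℂ (Sum.inl a) (Sum.inr c) = 0 := by simp [Sm, hac]
        rw [h0, mul_zero, zero_smul, sub_zero]
        exact (hl.sxy a c hac).smul _
    · have hsw : wd 1 (Pi.single (Sum.inr a) 1) (Pi.single (Sum.inl c) 1) = wd 1 (xx c) (yy a) := by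
        have h5 := wd_swap (σ := 1) (by norm_num) (xx c) (yy a)
        rw [one_smul] at h5
        exact h5
      rw [hsw]
      by_cases hac : a = c
      · have h0 : Sm ι ℂ (Sum.inr a) (Sum.inl c) = 1 := by simp [Sm, hac]
        rw [h0, mul_one, hac]
        exact hdg c
      · have h0 : Sm ι ℂ (Sum.inr a) (Sum.inl c) = 0 := by simp [Sm, hac]
        rw [h0, mul_zero, zero_smul, sub_zero]
        exact (hl.sxy c a (Ne.symm hac)).smul _
    · have h0 : Sm ι ℂ (Sum.inr a) (Sum.inr c) = 0 := by simp [Sm]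
      rw [h0, mul_zero, zero_smul, sub_zero]
      refine Eig.smul ?_ _
      by_cases hac : a = c
      · rw [hac, wd, one_smul]
        exact (hy c).add (hy c)
      · exact hl.syy a c hac
  refine ⟨l, mv_ext fun p q => ?_⟩
  conv_lhs => rw [← hbe]
  rw [← Matrix.mulVec_mulVec, Matrix.smul_mulVec]
  exact key p q

/-! ### the partial trace -/

theorem hval_A [Nonempty ι] {g : Matrix (ι ⊕ ι) (ι ⊕ ι) ℂ} (hg : g ∈ GT ι) :
    ptr2 (dv (g * Dm ι ℂ * gi g) * toC (eA ι)) = ((Fintype.card ι : ℂ) - 1) • (g * Dm ι ℂ * gi g) := by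
  rw [toC_eA, mul_smul_comm, mul_sub, mul_one, map_smul, map_sub, ptr2_dv _ (trace_Z hg), ptr2_dv_tau, ← sub_smul,
    smul_smul, Fintype.card_sum]
  congr 1
  push_cast
  ring

theorem dv_ZZ {Z : Matrix (ι ⊕ ι) (ι ⊕ ι) ℂ} (hZ : Z * Sm ι ℂ + Sm ι ℂ * Zᵀ = 0) : dv Z * ZZ ι ℂ = 0 := by
  rw [dv, add_mul, kron_ZZ, kron_ZZ, ← Matrix.add_vecMulVec]
  have h1 : ((fun a : (ι ⊕ ι) × (ι ⊕ ι) => (Z * Sm ι ℂ * (1 : Matrix (ι ⊕ ι) (ι ⊕ ι) ℂ)ᵀ) a.1 a.2) +
      fun a : (ι ⊕ ι) × (ι ⊕ ι) => ((1 : Matrix (ι ⊕ ι) (ι ⊕ ι) ℂ) * Sm ι ℂ * Zᵀ) a.1 a.2) = 0 := by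
    funext a
    have := congrFun (congrFun hZ a.1) a.2
    rw [Matrix.add_apply, Matrix.zero_apply] at this
    rw [Pi.add_apply, Matrix.transpose_one, mul_one, one_mul, this]
    rfl
  rw [h1, Matrix.zero_vecMulVec]

theorem hval_S [Nonempty ι] {g : Matrix (ι ⊕ ι) (ι ⊕ ι) ℂ} (hg : g ∈ GT ι) :
    ptr2 (dv (g * Dm ι ℂ * gi g) * toC (eS ι)) = ((Fintype.card ι : ℂ) + 1) • (g * Dm ι ℂ * gi g) := by
  rw [toC_eS, mul_sub, mul_smul_comm, mul_smul_comm, dv_ZZ (Z_skew hg), smul_zero, sub_zero, mul_add, mul_one, map_smul,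
    map_add, ptr2_dv _ (trace_Z hg), ptr2_dv_tau, ← add_smul, smul_smul, Fintype.card_sum]
  congr 1
  push_cast
  ring

/-! ### traces -/

theorem R_tr2 : (R0 ι 2).trace = (Fintype.card ι : ℂ) ^ 2 := by
  rw [R_two, Matrix.trace_kronecker, Pp_trace, sq]

theorem R_tr1 : (R0 ι 1).trace = 2 * (Fintype.card ι : ℂ) ^ 2 := by
  rw [R_one, Matrix.trace_add, Matrix.trace_kronecker, Matrix.trace_kronecker, Pp_trace, Pm_trace]
  ring

theorem Rt_tr2 : (R0 ι 2 * Her27.tau (ι ⊕ ι) ℂ).trace = (Fintype.card ι : ℂ) := by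
  rw [R_two, trace_kron_tau, Pp_sq, Pp_trace]

theorem Rt_tr1 : (R0 ι 1 * Her27.tau (ι ⊕ ι) ℂ).trace = 0 := by
  rw [R_one, add_mul, Matrix.trace_add, trace_kron_tau, trace_kron_tau, Pp_Pm, Pm_Pp, Matrix.trace_zero, add_zero]

theorem trA2 : (R0 ι 2 * toC (eA ι)).trace = (1 / 2 : ℂ) * ((Fintype.card ι : ℂ) ^ 2 - Fintype.card ι) := by
  rw [toC_eA, mul_smul_comm, mul_sub, mul_one, Matrix.trace_smul, Matrix.trace_sub, R_tr2, Rt_tr2, smul_eq_mul]

theorem trA1 : (R0 ι 1 * toC (eA ι)).trace = (Fintype.card ι : ℂ) ^ 2 := by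
  rw [toC_eA, mul_smul_comm, mul_sub, mul_one, Matrix.trace_smul, Matrix.trace_sub, R_tr1, Rt_tr1, smul_eq_mul]
  ring

theorem trS2 : (R0 ι 2 * toC (eS ι)).trace = (1 / 2 : ℂ) * ((Fintype.card ι : ℂ) ^ 2 + Fintype.card ι) := by
  rw [toC_eS, mul_sub, mul_smul_comm, mul_smul_comm, R_ZZ, if_neg (by norm_num), smul_zero, sub_zero, mul_add, mul_one,
    Matrix.trace_smul, Matrix.trace_add, R_tr2, Rt_tr2, smul_eq_mul]

theorem trS1 [Nonempty ι] : (R0 ι 1 * toC (eS ι)).trace = (Fintype.card ι : ℂ) ^ 2 - 1 := by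
  have hN : (2 * Fintype.card ι : ℂ) ≠ 0 := by
    have := card_ne' (ι := ι)
    exact_mod_cast this
  rw [toC_eS, mul_sub, mul_smul_comm, mul_smul_comm, R_ZZ, if_pos rfl, mul_add, mul_one,
    Matrix.trace_sub, Matrix.trace_smul, Matrix.trace_smul, Matrix.trace_add, R_tr1, Rt_tr1, ZZ_trace, smul_eq_mul,
    smul_eq_mul, one_div_mul_cancel hN]
  ring

theorem three_fin {r : ℕ} (hr : 3 ≤ r) : Three (Fin r) := by
  intro a c
  by_contra hcon
  push Not at hcon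
  have h1 : (Finset.univ : Finset (Fin r)) ⊆ {a, c} := by
    intro d _
    rw [Finset.mem_insert, Finset.mem_singleton]
    by_cases hd : d = a
    · exact Or.inl hd
    · exact Or.inr (hcon d hd)
  have h2 := Finset.card_le_card h1
  rw [Finset.card_univ, Fintype.card_fin] at h2
  have h3 := Finset.card_le_two (a := a) (b := c)
  omega

end MH.QS94

namespace MH

open QS94 in
/-- For all `r ≥ 3` there is a polarised rational Hodge structure with the Hodge numbers `r (r - 1) / 2`, `r ^ 2`,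
`r (r - 1) / 2`, with the endomorphisms `ℚ`, the Mumford-Tate group of which is smaller than the group of similitudes. -/
theorem sharp_quat_alt (r : ℕ) (hr : 3 ≤ r) :
    ∃ (n : Type) (_ : Fintype n) (_ : DecidableEq n) (Q : Matrix n n ℚ) (P : ℤ → Matrix n n ℂ), IsHW 2 Q {0, 1, 2} P ∧
      (∀ A : Matrix n n ℚ, (∀ p, toC A * P p = P p * toC A) → ∃ c : ℚ, A = c • (1 : Matrix n n ℚ)) ∧
      2 * (P 2).rank = r * (r - 1) ∧ (P 1).rank = r ^ 2 ∧ ∃ g : GL n ℂ, IsGQ 2 Q g ∧ g ∉ MT {0, 1, 2} P := by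
  have h3 := three_fin hr
  have : Nonempty (Fin r) := ⟨⟨0, by omega⟩⟩
  have hch : 2 * r.choose 2 = r * (r - 1) := by
    rw [Nat.choose_two_right, Nat.mul_div_cancel' (Nat.even_mul_pred_self r).two_dvd]
  have hch' : (2 : ℂ) * (r.choose 2 : ℂ) = (r : ℂ) ^ 2 - r := by
    have h1 : ((2 * r.choose 2 : ℕ) : ℂ) = ((r * (r - 1) : ℕ) : ℂ) := by rw [hch]
    rw [Nat.cast_mul, Nat.cast_mul, Nat.cast_sub (by omega)] at h1
    push_cast at h1
    rw [h1]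
    ring
  obtain ⟨n, i1, i2, Q, P, H, hEnd, r2, r1, hg⟩ := final_of (e := eA (Fin r)) edA (hend_A h3) (s := r.choose 2)
    (k := r ^ 2) (c := (Fintype.card (Fin r) : ℂ) - 1) (by
      rw [Fintype.card_fin]
      intro h
      have h1 : (r : ℂ) = 1 := by linear_combination h
      have h2 : r = 1 := by exact_mod_cast h1
      omega) (fun g hg => hval_A hg) (by
      rw [trA2, Fintype.card_fin]
      linear_combination (-1 / 2 : ℂ) * hch') (by
      rw [trA1, Fintype.card_fin]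
      push_cast
      rfl) (by
      rw [Fintype.card_fin, hch]
      obtain ⟨r, rfl⟩ := Nat.exists_eq_add_of_le hr
      have h1 : 3 + r - 1 = 2 + r := by omega
      rw [h1]
      nlinarith [sq_nonneg r, Nat.zero_le r])
  exact ⟨n, i1, i2, Q, P, H, hEnd, by rw [r2, hch], r1, hg⟩

open QS94 in
/-- For all `r ≥ 3` there is a polarised rational Hodge structure with the Hodge numbers `r (r + 1) / 2`, `r ^ 2 - 1`,
`r (r + 1) / 2`, with the endomorphisms `ℚ`, the Mumford-Tate group of which is smaller than the group of similitudes. -/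
theorem sharp_quat_sym (r : ℕ) (hr : 3 ≤ r) :
    ∃ (n : Type) (_ : Fintype n) (_ : DecidableEq n) (Q : Matrix n n ℚ) (P : ℤ → Matrix n n ℂ), IsHW 2 Q {0, 1, 2} P ∧
      (∀ A : Matrix n n ℚ, (∀ p, toC A * P p = P p * toC A) → ∃ c : ℚ, A = c • (1 : Matrix n n ℚ)) ∧
      2 * (P 2).rank = r * (r + 1) ∧ (P 1).rank + 1 = r ^ 2 ∧ ∃ g : GL n ℂ, IsGQ 2 Q g ∧ g ∉ MT {0, 1, 2} P := by
  have h3 := three_fin hr
  have : Nonempty (Fin r) := ⟨⟨0, by omega⟩⟩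
  have hch : 2 * (r + 1).choose 2 = r * (r + 1) := by
    rw [Nat.choose_two_right, Nat.mul_div_cancel' (Nat.even_mul_pred_self (r + 1)).two_dvd, Nat.add_sub_cancel, mul_comm]
  have hch' : (2 : ℂ) * ((r + 1).choose 2 : ℂ) = (r : ℂ) ^ 2 + r := by
    have h1 : ((2 * (r + 1).choose 2 : ℕ) : ℂ) = ((r * (r + 1) : ℕ) : ℂ) := by rw [hch]
    push_cast at h1
    rw [h1]
    ring
  have hr1 : 1 ≤ r ^ 2 := Nat.one_le_pow _ _ (by omega)
  obtain ⟨n, i1, i2, Q, P, H, hEnd, r2, r1, hg⟩ := final_of (e := eS (Fin r)) edS (hend_S h3) (s := (r + 1).choose 2)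
    (k := r ^ 2 - 1) (c := (Fintype.card (Fin r) : ℂ) + 1) (by
      rw [Fintype.card_fin]
      exact_mod_cast Nat.succ_ne_zero r) (fun g hg => hval_S hg) (by
      rw [trS2, Fintype.card_fin]
      linear_combination (-1 / 2 : ℂ) * hch') (by
      rw [trS1, Fintype.card_fin, Nat.cast_sub hr1]
      push_cast
      rfl) (by
      rw [Fintype.card_fin, hch]
      obtain ⟨r, rfl⟩ := Nat.exists_eq_add_of_le hr
      have h1 : (3 + r) ^ 2 - 1 = 8 + 6 * r + r ^ 2 := by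
        have : (3 + r) ^ 2 = (8 + 6 * r + r ^ 2) + 1 := by ring
        omega
      rw [h1]
      nlinarith [sq_nonneg r, Nat.zero_le r])
  exact ⟨n, i1, i2, Q, P, H, hEnd, by rw [r2, hch], by omega, hg⟩

end MH
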